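import Pool.Agent.H58.S13.Plane

/-!
# S13: quadratic descent for a pencil of quinary forms with a degenerate member of square discriminant
-/

set_option autoImplicit false

namespace Pool.Agent.H58.S13

open Matrix Polynomial

theorem qf_insert {M : Type*} [CommRing M] (S : Matrix (Fin 5) (Fin 5) M) (i : Fin 5) (z : Fin 4 → M) :
    qf S (i.insertNth (0 : M) z) = qf (S.submatrix i.succAbove i.succAbove) z := by
  rw [qf_eq, qf_eq, Fin.sum_univ_succAbove _ i]
  have h1 : ∑ j, S i j * ((i.insertNth (0 : M) z : Fin 5 → M) i * (i.insertNth (0 : M) z : Fin 5 → M) j) = 0 := by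
    refine Finset.sum_eq_zero fun j _ => ?_
    rw [Fin.insertNth_apply_same, zero_mul, mul_zero]
  rw [h1, zero_add]
  refine Finset.sum_congr rfl fun a _ => ?_
  rw [Fin.sum_univ_succAbove _ i, Fin.insertNth_apply_same, mul_zero, mul_zero, zero_add]
  refine Finset.sum_congr rfl fun b _ => ?_
  rw [Fin.insertNth_apply_succAbove, Fin.insertNth_apply_succAbove, Matrix.submatrix_apply]

theorem qf_add_ker {M : Type*} [CommRing M] {S : Matrix (Fin 5) (Fin 5) M} (hS : Sᵀ = S) {e : Fin 5 → M}
    (he : S *ᵥ e = 0) (c : M) (x : Fin 5 → M) : qf S (c • e + x) = qf S x := by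
  have h1 : ∀ z, bf S z e = 0 := fun z => by
    unfold bf
    rw [he, dotProduct_zero]
  rw [← bf_self, bf_add_left, bf_add_right, bf_add_right, bf_smul_left, bf_smul_left, bf_smul_right, bf_smul_right,
    h1, bf_symm hS e x, h1, bf_self]
  ring

/-- a totally isotropic subspace of dimension three -/
theorem iso_three {M : Type*} [Field M] (S : Matrix (Fin 5) (Fin 5) M) (hS : Sᵀ = S) (hdet : S.det = 0) (i : Fin 5)
    (s : M) (hs : s ≠ 0) (hmin : (S.submatrix i.succAbove i.succAbove).det = s ^ 2) (x : Fin 5 → M)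
    (hx : S *ᵥ x ≠ 0) (hq : qf S x = 0) :
    ∃ w : Fin 3 → Fin 5 → M, LinearIndependent M w ∧ ∀ a : Fin 3 → M, qf S (∑ j, a j • w j) = 0 := by
  obtain ⟨S', hS'⟩ : ∃ S', S' = S.submatrix i.succAbove i.succAbove := ⟨_, rfl⟩
  rw [← hS'] at hmin
  have hS't : S'ᵀ = S' := by
    rw [hS']
    ext a b
    rw [Matrix.transpose_apply, Matrix.submatrix_apply, Matrix.submatrix_apply]
    exact congrFun (congrFun hS (i.succAbove a)) (i.succAbove b)
  have hd0 : S'.det ≠ 0 := by
    rw [hmin]
    exact pow_ne_zero 2 hs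
  obtain ⟨e, he0, he⟩ := Matrix.exists_mulVec_eq_zero_iff.2 hdet
  have hei : e i ≠ 0 := by
    intro h0
    apply hd0
    rw [← Matrix.exists_mulVec_eq_zero_iff]
    refine ⟨fun a => e (i.succAbove a), ?_, ?_⟩
    · intro h
      apply he0
      funext b
      rcases Fin.eq_self_or_eq_succAbove i b with hb | ⟨a, hb⟩
      · rw [hb, h0]
        rfl
      · rw [hb]
        exact congrFun h a
    · funext a
      have h1 := congrFun he (i.succAbove a)
      rw [Matrix.mulVec, dotProduct, Fin.sum_univ_succAbove _ i, h0, mul_zero, zero_add] at h1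
      rw [Matrix.mulVec, dotProduct, hS']
      exact h1
  obtain ⟨z, hz⟩ : ∃ z : Fin 4 → M, z = fun a => (x - (x i / e i) • e) (i.succAbove a) := ⟨_, rfl⟩
  have hxz : x = (x i / e i) • e + i.insertNth (0 : M) z := by
    funext b
    rcases Fin.eq_self_or_eq_succAbove i b with hb | ⟨a, hb⟩
    · rw [hb, Pi.add_apply, Fin.insertNth_apply_same, Pi.smul_apply, smul_eq_mul, div_mul_cancel₀ _ hei, add_zero]
    · rw [hb, Pi.add_apply, Fin.insertNth_apply_succAbove, hz]
      simp only [Pi.sub_apply, Pi.smul_apply, smul_eq_mul]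
      ring
  have hz0 : z ≠ 0 := by
    rintro rfl
    apply hx
    have h1 : (i.insertNth (0 : M) (0 : Fin 4 → M) : Fin 5 → M) = 0 := by
      funext b
      rcases Fin.eq_self_or_eq_succAbove i b with hb | ⟨a, hb⟩
      · rw [hb, Fin.insertNth_apply_same]
        rfl
      · rw [hb, Fin.insertNth_apply_succAbove]
        rfl
    rw [hxz, h1, add_zero, mulVec_smul, he, smul_zero]
  have hqz : qf S' z = 0 := by
    rw [hS', ← qf_insert, ← qf_add_ker hS he (x i / e i), ← hxz]
    exact hq
  obtain ⟨y, hli, hqy, hzy⟩ := iso_plane S' hS't s hs hmin z hz0 hqz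
  have hpair := LinearIndependent.pair_iff.1 hli
  have hins : ∀ b c : M, b • (i.insertNth (0 : M) z : Fin 5 → M) + c • (i.insertNth (0 : M) y : Fin 5 → M) =
      i.insertNth (0 : M) (b • z + c • y) := by
    intro b c
    funext d
    rcases Fin.eq_self_or_eq_succAbove i d with hb | ⟨a, hb⟩
    · rw [hb]
      simp only [Pi.add_apply, Pi.smul_apply, Fin.insertNth_apply_same, smul_eq_mul, mul_zero, add_zero]
    · rw [hb]
      simp only [Pi.add_apply, Pi.smul_apply, Fin.insertNth_apply_succAbove, smul_eq_mul]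
  have hsum : ∀ a : Fin 3 → M, ∑ j, a j • (![e, i.insertNth (0 : M) z, i.insertNth (0 : M) y] : Fin 3 → Fin 5 → M) j =
      a 0 • e + i.insertNth (0 : M) (a 1 • z + a 2 • y) := by
    intro a
    rw [Fin.sum_univ_three, ← hins, add_assoc]
    rfl
  refine ⟨![e, i.insertNth (0 : M) z, i.insertNth (0 : M) y], ?_, ?_⟩
  · rw [Fintype.linearIndependent_iff]
    intro a ha
    rw [hsum] at ha
    have h1 := congrFun ha i
    rw [Pi.add_apply, Fin.insertNth_apply_same, add_zero, Pi.smul_apply, smul_eq_mul, Pi.zero_apply] at h1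
    have h0 : a 0 = 0 := (mul_eq_zero.1 h1).resolve_right hei
    rw [h0, zero_smul, zero_add] at ha
    have h2 : a 1 • z + a 2 • y = 0 := by
      funext b
      have := congrFun ha (i.succAbove b)
      rw [Fin.insertNth_apply_succAbove] at this
      exact this
    obtain ⟨h3, h4⟩ := hpair _ _ h2
    intro j
    fin_cases j
    · exact h0
    · exact h3
    · exact h4
  · intro a
    rw [hsum, qf_add_ker hS he, qf_insert, ← hS', ← bf_self, bf_add_left, bf_add_right, bf_add_right, bf_smul_left,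
      bf_smul_left, bf_smul_left, bf_smul_left, bf_smul_right, bf_smul_right, bf_smul_right, bf_smul_right, bf_symm hS't y z,
      hzy, bf_self, bf_self, hqz, hqy]
    ring

/-- quadratic descent -/
theorem quad_step {K M : Type*} [Field K] [Field M] [Algebra K M] (h2 : (2 : M) ≠ 0) (σ : M ≃ₐ[K] M)
    (hσ : ∀ z, σ (σ z) = z) (hfix : ∀ z, σ z = z → ∃ y : K, algebraMap K M y = z) (A B : Matrix (Fin 5) (Fin 5) K)
    (t : M) (ht : σ t ≠ t) (w : Fin 3 → Fin 5 → M) (hw : LinearIndependent M w)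
    (hq : ∀ a : Fin 3 → M, qf (A.map (algebraMap K M)) (∑ j, a j • w j) +
      t * qf (B.map (algebraMap K M)) (∑ j, a j • w j) = 0) :
    ∃ y : Fin 5 → K, y ≠ 0 ∧ qf A y = 0 ∧ qf B y = 0 := by
  obtain ⟨Φ, hΦ⟩ : ∃ Φ : ((Fin 3 → M) × (Fin 3 → M)) →ₗ[M] (Fin 5 → M),
      ∀ p, Φ p = ∑ j, p.1 j • w j - ∑ j, p.2 j • (fun b => σ (w j b)) := by
    refine ⟨{ toFun := fun p => ∑ j, p.1 j • w j - ∑ j, p.2 j • (fun b => σ (w j b)), map_add' := ?_, map_smul' := ?_ },
      fun p => rfl⟩
    · intro p q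
      simp only [Prod.fst_add, Prod.snd_add, Pi.add_apply, add_smul, Finset.sum_add_distrib]
      abel
    · intro c p
      simp only [Prod.smul_fst, Prod.smul_snd, Pi.smul_apply, smul_eq_mul, mul_smul, RingHom.id_apply, smul_sub,
        Finset.smul_sum]
  have hker : LinearMap.ker Φ ≠ ⊥ := by
    apply LinearMap.ker_ne_bot_of_finrank_lt
    rw [Module.finrank_prod, Module.finrank_fin_fun, Module.finrank_fin_fun]
    norm_num
  obtain ⟨⟨a, b⟩, hab, hab0⟩ := (Submodule.ne_bot_iff _).1 hker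
  have heq : ∑ j, a j • w j = ∑ j, b j • (fun d => σ (w j d)) := by
    have := hΦ (a, b)
    rw [LinearMap.mem_ker.1 hab] at this
    exact (sub_eq_zero.1 this.symm)
  obtain ⟨u, hu⟩ : ∃ u, u = ∑ j, a j • w j := ⟨_, rfl⟩
  have huc : ∀ d, u d = ∑ j, a j * w j d := fun d => by
    rw [hu, Finset.sum_apply]
    rfl
  have huc' : ∀ d, u d = ∑ j, b j * σ (w j d) := fun d => by
    rw [hu, heq, Finset.sum_apply]
    rfl
  have hσu : ∀ d, σ (u d) = ∑ j, σ (b j) * w j d := fun d => by
    rw [huc' d, map_sum]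
    refine Finset.sum_congr rfl fun j _ => ?_
    rw [map_mul, hσ]
  have hli := Fintype.linearIndependent_iff.1 hw
  have hu0 : u ≠ 0 := by
    intro h0
    apply hab0
    have h1 : ∀ j, a j = 0 := hli a (by rw [← hu, h0])
    have h3 : ∀ j, σ (b j) = 0 := hli (fun j => σ (b j)) (by
      funext d
      rw [Finset.sum_apply]
      have := hσu d
      rw [h0, Pi.zero_apply, map_zero] at this
      exact this.symm)
    have h4 : ∀ j, b j = 0 := fun j => by
      have := h3 j
      rwa [map_eq_zero_iff σ σ.injective] at this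
    exact Prod.ext (funext h1) (funext h4)
  obtain ⟨d0, hd0⟩ : ∃ d, u d ≠ 0 := by
    by_contra hc
    push Not at hc
    exact hu0 (funext hc)
  obtain ⟨c, hc⟩ : ∃ c, c = (u d0)⁻¹ := ⟨_, rfl⟩
  obtain ⟨x, hx⟩ : ∃ x : Fin 5 → M, x = fun d => c * u d + σ (c * u d) := ⟨_, rfl⟩
  have hxs : x = ∑ j, (c * a j + σ c * σ (b j)) • w j := by
    funext d
    rw [hx, Finset.sum_apply]
    simp only [map_mul, hσu]
    rw [huc, Finset.mul_sum, Finset.mul_sum, ← Finset.sum_add_distrib]
    refine Finset.sum_congr rfl fun j _ => ?_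
    rw [Pi.smul_apply, smul_eq_mul]
    ring
  have hxf : ∀ d, σ (x d) = x d := fun d => by
    rw [hx]
    simp only [map_add, hσ]
    rw [add_comm]
  choose y hy using fun d => hfix (x d) (hxf d)
  have hx0 : x d0 ≠ 0 := by
    rw [hx, hc]
    simp only
    rw [inv_mul_cancel₀ hd0, map_one, one_add_one_eq_two]
    exact h2
  have hy0 : y ≠ 0 := by
    rintro rfl
    apply hx0
    rw [← hy d0, Pi.zero_apply, map_zero]
  have hxy : (fun d => algebraMap K M (y d)) = x := funext hy
  have h1 := hq (fun j => c * a j + σ c * σ (b j))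
  rw [← hxs, ← hxy, qf_map, qf_map] at h1
  have h3 := congrArg σ h1
  rw [map_add, map_mul, map_zero, AlgEquiv.commutes, AlgEquiv.commutes] at h3
  have h4 : algebraMap K M (qf B y) = 0 := by
    have h5 : (σ t - t) * algebraMap K M (qf B y) = 0 := by linear_combination h3 - h1
    exact (mul_eq_zero.1 h5).resolve_left (sub_ne_zero.2 ht)
  have h6 : algebraMap K M (qf A y) = 0 := by
    rw [h4, mul_zero, add_zero] at h1
    exact h1
  exact ⟨y, hy0, (map_eq_zero_iff _ (algebraMap K M).injective).1 h6,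
    (map_eq_zero_iff _ (algebraMap K M).injective).1 h4⟩

end Pool.Agent.H58.S13
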