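import Pool.Agent.H58.S13.Springer

/-!
# S13: the theorem of Amer and Brumer in polynomial form

If `v ∈ k[T]^n`, `v ≠ 0` and `qf A v + T qf B v = 0`, then `qf A`, `qf B` have a common zero over `k`.
Induction on the degree `d` of `v`: `u` the coefficient vector at `T^d`, `v = T^d u + v'`; `B(u) = 0`; if `A(u) ≠ 0` the reflection of `v` in `u` has smaller degree.
-/

set_option autoImplicit false

namespace Pool.Agent.H58.S13

open Matrix Polynomial

variable {n : Type*} [Fintype n]

/-- the polar form -/
def pf {R : Type*} [CommRing R] {n : Type*} [Fintype n] (A : Matrix n n R) (x y : n → R) : R :=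
  ∑ i, ∑ j, A i j * (x i * y j + y i * x j)

theorem qf_add_smul {R : Type*} [CommRing R] (A : Matrix n n R) (c e : R) (x y : n → R) :
    qf A (fun i => c * x i + e * y i) = c ^ 2 * qf A x + c * e * pf A x y + e ^ 2 * qf A y := by
  rw [qf_eq, qf_eq, qf_eq]
  unfold pf
  rw [Finset.mul_sum, Finset.mul_sum, Finset.mul_sum, ← Finset.sum_add_distrib, ← Finset.sum_add_distrib]
  refine Finset.sum_congr rfl fun i _ => ?_
  rw [Finset.mul_sum, Finset.mul_sum, Finset.mul_sum, ← Finset.sum_add_distrib, ← Finset.sum_add_distrib]
  refine Finset.sum_congr rfl fun j _ => ?_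
  ring

/-- the form `A + T B` -/
noncomputable def QT {k : Type*} [Field k] (A B : Matrix n n k) (v : n → k[X]) : k[X] :=
  qf (A.map C) v + X * qf (B.map C) v

/-- its polar form -/
noncomputable def PT {k : Type*} [Field k] (A B : Matrix n n k) (v w : n → k[X]) : k[X] :=
  pf (A.map C) v w + X * pf (B.map C) v w

theorem QT_add {k : Type*} [Field k] (A B : Matrix n n k) (c e : k[X]) (x y : n → k[X]) :
    QT A B (fun i => c * x i + e * y i) = c ^ 2 * QT A B x + c * e * PT A B x y + e ^ 2 * QT A B y := by
  unfold QT PT
  rw [qf_add_smul, qf_add_smul]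
  ring

theorem qf_C {k : Type*} [Field k] (A : Matrix n n k) (u : n → k) :
    qf (A.map C) (fun i => C (u i)) = C (qf A u) := qf_map C A u

theorem pf_natDegree {F : Type*} [Field F] (A : Matrix n n F) (v w : n → F[X]) (d e : ℕ)
    (hv : ∀ i, (v i).natDegree ≤ d) (hw : ∀ i, (w i).natDegree ≤ e) :
    (pf (A.map C) v w).natDegree ≤ d + e := by
  unfold pf
  refine natDegree_sum_le_of_forall_le _ _ fun i _ => natDegree_sum_le_of_forall_le _ _ fun j _ => ?_
  rw [Matrix.map_apply]
  refine (natDegree_C_mul_le _ _).trans (natDegree_add_le_of_degree_le ?_ ?_)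
  · refine natDegree_mul_le.trans ?_
    have := hv i
    have := hw j
    omega
  · refine natDegree_mul_le.trans ?_
    have := hv j
    have := hw i
    omega

/-- Amer - Brumer -/
theorem amer {k : Type*} [Field k] (A B : Matrix n n k) (d : ℕ) (v : n → k[X]) (hv : v ≠ 0)
    (hd : ∀ i, (v i).natDegree ≤ d) (hq : QT A B v = 0) :
    ∃ x : n → k, x ≠ 0 ∧ qf A x = 0 ∧ qf B x = 0 := by
  induction' d with d ih generalizing v
  · -- constant vectors
    have hvc : v = fun i => C ((v i).coeff 0) := by
      funext i
      exact eq_C_of_natDegree_le_zero (hd i)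
    refine ⟨fun i => (v i).coeff 0, ?_, ?_, ?_⟩
    · intro h
      apply hv
      rw [hvc]
      funext i
      have := congrFun h i
      simp only [Pi.zero_apply] at this ⊢
      rw [this, C_0]
    · rw [hvc] at hq
      unfold QT at hq
      rw [qf_C, qf_C] at hq
      have := congrArg (fun p => coeff p 0) hq
      simpa using this
    · rw [hvc] at hq
      unfold QT at hq
      rw [qf_C, qf_C] at hq
      have := congrArg (fun p => coeff p 1) hq
      simpa [coeff_X_mul] using this
  · obtain ⟨u, hu⟩ : ∃ u : n → k, u = fun i => (v i).coeff (d + 1) := ⟨_, rfl⟩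
    by_cases hu0 : u = 0
    · refine ih v hv (fun i => ?_) hq
      have h1 := congrFun hu0 i
      rw [hu] at h1
      simp only [Pi.zero_apply] at h1
      refine natDegree_le_iff_coeff_eq_zero.2 fun N hN => ?_
      rcases Nat.lt_or_ge (d + 1) N with h2 | h2
      · exact coeff_eq_zero_of_natDegree_lt (lt_of_le_of_lt (hd i) h2)
      · have : N = d + 1 := by omega
        rw [this]
        exact h1
    -- `v = T^(d+1) u + v'`
    obtain ⟨v', hv'⟩ : ∃ v' : n → k[X], v' = fun i => v i - X ^ (d + 1) * C (u i) := ⟨_, rfl⟩
    have hvv : v = fun i => X ^ (d + 1) * (fun j => C (u j)) i + 1 * v' i := by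
      funext i
      rw [hv']
      simp only
      ring
    have hd' : ∀ i, (v' i).natDegree ≤ d := by
      intro i
      refine natDegree_le_iff_coeff_eq_zero.2 fun N hN => ?_
      rw [hv']
      simp only [coeff_sub]
      rcases Nat.lt_or_ge (d + 1) N with h2 | h2
      · rw [coeff_eq_zero_of_natDegree_lt (lt_of_le_of_lt (hd i) h2), mul_comm, coeff_C_mul, coeff_X_pow,
          if_neg (by omega), mul_zero, sub_zero]
      · have : N = d + 1 := by omega
        rw [this, mul_comm, coeff_C_mul, coeff_X_pow, if_pos rfl, mul_one, hu, sub_self]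
    have hQu : QT A B (fun j => C (u j)) = C (qf A u) + X * C (qf B u) := by
      unfold QT
      rw [qf_C, qf_C]
    have hQv := hq
    rw [hvv, QT_add, hQu] at hQv
    have hPd : (PT A B (fun j => C (u j)) v').natDegree ≤ d + 1 := by
      unfold PT
      refine natDegree_add_le_of_degree_le ?_ ?_
      · refine (pf_natDegree A _ _ 0 d (fun i => (natDegree_C _).le) hd').trans (by omega)
      · refine natDegree_mul_le.trans ?_
        have := pf_natDegree B (fun j => C (u j)) v' 0 d (fun i => (natDegree_C _).le) hd'
        have h1 : (X : k[X]).natDegree ≤ 1 := natDegree_X_le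
        omega
    have hQd : (QT A B v').natDegree ≤ 2 * d + 1 := by
      unfold QT
      refine natDegree_add_le_of_degree_le ?_ ?_
      · exact (qf_natDegree A v' d hd').trans (by omega)
      · refine natDegree_mul_le.trans ?_
        have := qf_natDegree B v' d hd'
        have h1 : (X : k[X]).natDegree ≤ 1 := natDegree_X_le
        omega
    -- `B(u) = 0`
    have hBu : qf B u = 0 := by
      have h1 := congrArg (fun p => coeff p (2 * (d + 1) + 1)) hQv
      simp only [one_pow, one_mul, mul_one, coeff_add, coeff_zero] at h1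
      have e1 : (X ^ (d + 1)) ^ 2 * (C (qf A u) + X * C (qf B u)) =
          C (qf A u) * X ^ (2 * (d + 1)) + C (qf B u) * X ^ (2 * (d + 1) + 1) := by ring
      rw [e1, coeff_add, coeff_C_mul, coeff_C_mul, coeff_X_pow, coeff_X_pow, if_neg (by omega), if_pos rfl,
        mul_zero, mul_one, zero_add] at h1
      have e2 : (X ^ (d + 1) * PT A B (fun j => C (u j)) v').coeff (2 * (d + 1) + 1) = 0 := by
        refine coeff_eq_zero_of_natDegree_lt (lt_of_le_of_lt natDegree_mul_le ?_)
        rw [natDegree_X_pow]
        omega
      have e3 : (QT A B v').coeff (2 * (d + 1) + 1) = 0 :=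
        coeff_eq_zero_of_natDegree_lt (by omega)
      rw [e2, e3, add_zero, add_zero] at h1
      exact h1
    by_cases hAu : qf A u = 0
    · exact ⟨u, hu0, hAu, hBu⟩
    -- the reflection
    rw [hBu, C_0, mul_zero, add_zero] at hQu hQv
    obtain ⟨c, hc⟩ : ∃ c : k[X], c = C (qf A u)⁻¹ := ⟨_, rfl⟩
    have hcA : c * C (qf A u) = 1 := by
      rw [hc, ← C_mul, inv_mul_cancel₀ hAu, C_1]
    obtain ⟨b, hb⟩ : ∃ b, b = PT A B (fun j => C (u j)) v' := ⟨_, rfl⟩
    obtain ⟨h, hh⟩ : ∃ h : k[X], h = X ^ (d + 1) * C (qf A u) + b := ⟨_, rfl⟩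
    have hXh : X ^ (d + 1) * h = - QT A B v' := by
      rw [← hb] at hQv
      rw [hh]
      linear_combination hQv
    have hhd : h.natDegree ≤ d := by
      by_cases h0 : h = 0
      · rw [h0, natDegree_zero]
        omega
      · have h1 : (X ^ (d + 1) * h).natDegree = d + 1 + h.natDegree := by
          rw [natDegree_mul (pow_ne_zero _ X_ne_zero) h0, natDegree_X_pow]
        rw [hXh, natDegree_neg] at h1
        omega
    refine ih (fun i => (-(c * h)) * (fun j => C (u j)) i + 1 * v' i) ?_ ?_ ?_
    · intro h0
      have h1 : ∀ i, v' i = c * h * C (u i) := by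
        intro i
        have := congrFun h0 i
        simp only [Pi.zero_apply] at this
        linear_combination this
      have h2 : v = fun i => (X ^ (d + 1) + c * h) * (fun j => C (u j)) i + 0 * v' i := by
        rw [hvv]
        funext i
        simp only
        rw [h1 i]
        ring
      have h3 := hq
      rw [h2, QT_add, hQu] at h3
      simp only [mul_zero, zero_mul, add_zero, ne_eq, OfNat.ofNat_ne_zero, not_false_eq_true, zero_pow] at h3
      rcases mul_eq_zero.1 h3 with h4 | h4
      · have h5 : X ^ (d + 1) + c * h = 0 := by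
          exact pow_eq_zero_iff (two_ne_zero) |>.1 h4
        have h6 : (c * h).natDegree ≤ d := by
          rw [hc]
          exact (natDegree_C_mul_le _ _).trans hhd
        have h7 := congrArg (fun p => coeff p (d + 1)) h5
        simp only [coeff_add, coeff_X_pow, if_pos, coeff_zero] at h7
        rw [coeff_eq_zero_of_natDegree_lt (lt_of_le_of_lt h6 (Nat.lt_succ_self d)), add_zero] at h7
        exact one_ne_zero h7
      · exact hAu (C_eq_zero.1 h4)
    · intro i
      refine natDegree_add_le_of_degree_le ?_ ?_
      · simp only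
        rw [mul_comm]
        refine (natDegree_C_mul_le _ _).trans ?_
        rw [natDegree_neg, hc]
        exact (natDegree_C_mul_le _ _).trans hhd
      · rw [one_mul]
        exact hd' i
    · rw [QT_add, hQu, ← hb]
      linear_combination (c * h ^ 2 + X ^ (d + 1) * h) * hcA + hXh + c * h * hh

end Pool.Agent.H58.S13
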