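import Mathlib

/-!
# S13: Springer's theorem in polynomial form

`qf A x = xᵀ A x`.  If `p` is irreducible of odd degree over `F`, `v ∈ F[X]^n` is not divisible by `p` and `p ∣ qf A v`, then `qf A` is isotropic over `F`.
-/

set_option autoImplicit false

namespace Pool.Agent.H58.S13

open Matrix Polynomial

universe u

/-- the quadratic form of a matrix -/
def qf {R : Type*} [CommRing R] {n : Type*} [Fintype n] (A : Matrix n n R) (x : n → R) : R := x ⬝ᵥ A *ᵥ x

variable {n : Type*} [Fintype n]

theorem qf_eq {R : Type*} [CommRing R] (A : Matrix n n R) (x : n → R) :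
    qf A x = ∑ i, ∑ j, A i j * (x i * x j) := by
  unfold qf
  simp only [dotProduct, mulVec, Finset.mul_sum]
  refine Finset.sum_congr rfl fun i _ => Finset.sum_congr rfl fun j _ => ?_
  ring

theorem qf_smul {R : Type*} [CommRing R] (A : Matrix n n R) (c : R) (x : n → R) :
    qf A (fun i => c * x i) = c ^ 2 * qf A x := by
  rw [qf_eq, qf_eq, Finset.mul_sum]
  refine Finset.sum_congr rfl fun i _ => ?_
  rw [Finset.mul_sum]
  refine Finset.sum_congr rfl fun j _ => ?_
  ring

theorem qf_map {R S : Type*} [CommRing R] [CommRing S] (φ : R →+* S) (A : Matrix n n R) (x : n → R) :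
    qf (A.map φ) (fun i => φ (x i)) = φ (qf A x) := by
  rw [qf_eq, qf_eq, map_sum]
  refine Finset.sum_congr rfl fun i _ => ?_
  rw [map_sum]
  refine Finset.sum_congr rfl fun j _ => ?_
  rw [map_mul, map_mul, Matrix.map_apply]

/-- an irreducible factor of odd degree -/
theorem exists_odd_factor {F : Type*} [Field F] (h : F[X]) (hodd : Odd h.natDegree) :
    ∃ p : F[X], Irreducible p ∧ p ∣ h ∧ Odd p.natDegree := by
  induction' hN : h.natDegree using Nat.strong_induction_on with N ih generalizing h
  have h0 : h ≠ 0 := by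
    rintro rfl
    simp at hodd
  have hnu : ¬ IsUnit h := by
    intro hu
    rw [natDegree_eq_zero_of_isUnit hu] at hodd
    simp at hodd
  obtain ⟨p, hp, a, ha⟩ := WfDvdMonoid.exists_irreducible_factor hnu h0
  rcases Nat.even_or_odd p.natDegree with he | ho
  · have ha0 : a ≠ 0 := by
      rintro rfl
      exact h0 (by rw [ha, mul_zero])
    have hd : h.natDegree = p.natDegree + a.natDegree := by
      rw [ha, natDegree_mul hp.ne_zero ha0]
    have hp1 : 0 < p.natDegree := hp.natDegree_pos
    have hao : Odd a.natDegree := by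
      rw [hd] at hodd
      by_contra hc
      rw [Nat.not_odd_iff_even] at hc
      exact (Nat.not_odd_iff_even.2 (he.add hc)) hodd
    obtain ⟨q, hq, hqa, hqo⟩ := ih a.natDegree (by omega) a hao rfl
    exact ⟨q, hq, hqa.trans (ha ▸ dvd_mul_left a p), hqo⟩
  · exact ⟨p, hp, ⟨a, ha⟩, ho⟩

theorem qf_congr_mod {F : Type*} [Field F] (A : Matrix n n F) (p : F[X]) (v w : n → F[X])
    (h : ∀ i, p ∣ v i - w i) : p ∣ qf (A.map C) v - qf (A.map C) w := by
  rw [qf_eq, qf_eq, ← Finset.sum_sub_distrib]
  refine Finset.dvd_sum fun i _ => ?_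
  rw [← Finset.sum_sub_distrib]
  refine Finset.dvd_sum fun j _ => ?_
  have e : (A.map C) i j * (v i * v j) - (A.map C) i j * (w i * w j) =
      (A.map C) i j * (v i - w i) * v j + (A.map C) i j * w i * (v j - w j) := by ring
  rw [e]
  exact dvd_add ((h i).mul_left _ |>.mul_right _) ((h j).mul_left _)

theorem qf_coeff {F : Type*} [Field F] (A : Matrix n n F) (w : n → F[X]) (e : ℕ) (hw : ∀ i, (w i).natDegree ≤ e) :
    (qf (A.map C) w).coeff (2 * e) = qf A (fun i => (w i).coeff e) := by
  rw [qf_eq, qf_eq, finsetSum_coeff]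
  refine Finset.sum_congr rfl fun i _ => ?_
  rw [finsetSum_coeff]
  refine Finset.sum_congr rfl fun j _ => ?_
  rw [Matrix.map_apply, coeff_C_mul, two_mul, coeff_mul_add_eq_of_natDegree_le (hw i) (hw j)]

theorem qf_natDegree {F : Type*} [Field F] (A : Matrix n n F) (w : n → F[X]) (e : ℕ) (hw : ∀ i, (w i).natDegree ≤ e) :
    (qf (A.map C) w).natDegree ≤ 2 * e := by
  rw [qf_eq]
  refine natDegree_sum_le_of_forall_le _ _ fun i _ => natDegree_sum_le_of_forall_le _ _ fun j _ => ?_
  rw [Matrix.map_apply]
  refine (natDegree_C_mul_le _ _).trans (natDegree_mul_le.trans ?_)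
  have := hw i
  have := hw j
  omega

/-- Springer's theorem -/
theorem springer {F : Type*} [Field F] (A : Matrix n n F) (p : F[X]) (hp : Irreducible p)
    (hodd : Odd p.natDegree) (v : n → F[X]) (hv : ∃ i, ¬ p ∣ v i) (hq : p ∣ qf (A.map C) v) :
    ∃ x : n → F, x ≠ 0 ∧ qf A x = 0 := by
  induction' hN : p.natDegree using Nat.strong_induction_on with N ih generalizing p v
  by_contra hani
  push_neg at hani
  -- reduction modulo `p`
  obtain ⟨w, hw⟩ : ∃ w : n → F[X], w = fun i => v i % p := ⟨_, rfl⟩
  have hvw : ∀ i, p ∣ v i - w i := fun i => by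
    rw [hw]
    exact ⟨v i / p, by
      have := EuclideanDomain.div_add_mod (v i) p
      show v i - v i % p = p * (v i / p)
      linear_combination -this⟩
  have hwd : ∀ i, (w i).degree < p.degree := fun i => by
    rw [hw]
    exact EuclideanDomain.mod_lt (v i) hp.ne_zero
  have hqw : p ∣ qf (A.map C) w := by
    have h1 := qf_congr_mod A p v w hvw
    have := dvd_sub hq h1
    rwa [sub_sub_cancel] at this
  have hw0 : ∃ i, w i ≠ 0 := by
    obtain ⟨i, hi⟩ := hv
    refine ⟨i, fun h => hi ?_⟩
    have := hvw i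
    rwa [h, sub_zero] at this
  -- division by the gcd
  classical
  obtain ⟨g, w', hg, hww', hcop⟩ : ∃ (g : F[X]) (w' : n → F[X]), g ≠ 0 ∧ (∀ i, w i = g * w' i) ∧
      ∀ r : F[X], (∀ i, r ∣ w' i) → IsUnit r := by
    obtain ⟨i0, hi0⟩ := hw0
    obtain ⟨g, hg, hg1⟩ := Finset.extract_gcd w (s := (Finset.univ : Finset n)) ⟨i0, Finset.mem_univ _⟩
    refine ⟨(Finset.univ : Finset n).gcd w, g, ?_, fun i => hg i (Finset.mem_univ _), ?_⟩
    · intro h
      rw [Finset.gcd_eq_zero_iff] at h
      exact hi0 (h i0 (Finset.mem_univ _))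
    · intro r hr
      have := Finset.dvd_gcd (s := (Finset.univ : Finset n)) (f := g) (a := r) (fun i _ => hr i)
      rw [hg1] at this
      exact isUnit_of_dvd_one this
  have hw'0 : ∃ i, w' i ≠ 0 := by
    obtain ⟨i, hi⟩ := hw0
    exact ⟨i, fun h => hi (by rw [hww' i, h, mul_zero])⟩
  have hqw' : p ∣ qf (A.map C) w' := by
    have h1 : qf (A.map C) w = g ^ 2 * qf (A.map C) w' := by
      rw [← qf_smul]
      congr 1
      funext i
      exact hww' i
    rw [h1] at hqw
    rcases hp.prime.dvd_or_dvd hqw with h | h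
    · exfalso
      have hpg : p ∣ g := hp.prime.dvd_of_dvd_pow h
      obtain ⟨i, hi⟩ := hw0
      have h2 : p ∣ w i := hpg.trans (hww' i ▸ dvd_mul_right g _)
      have h3 := degree_le_of_dvd h2 hi
      exact absurd (hwd i) (not_lt.2 h3)
    · exact h
  -- the degree
  obtain ⟨e, he⟩ : ∃ e, e = (Finset.univ : Finset n).sup (fun i => (w' i).natDegree) := ⟨_, rfl⟩
  have hle : ∀ i, (w' i).natDegree ≤ e := fun i => by
    rw [he]
    exact Finset.le_sup (f := fun i => (w' i).natDegree) (Finset.mem_univ i)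
  have hlead : (fun i => (w' i).coeff e) ≠ 0 := by
    intro h
    obtain ⟨i1, hi1⟩ := hw'0
    have hne : (Finset.univ : Finset n).Nonempty := ⟨i1, Finset.mem_univ _⟩
    obtain ⟨i2, -, hi2⟩ := Finset.exists_mem_eq_sup (Finset.univ : Finset n) hne (fun i => (w' i).natDegree)
    rw [← he] at hi2
    have h3 := congrFun h i2
    simp only [Pi.zero_apply] at h3
    rw [hi2, coeff_natDegree, leadingCoeff_eq_zero] at h3
    have he0 : e = 0 := by rw [hi2, h3, natDegree_zero]
    have h4 := hle i1
    rw [he0, Nat.le_zero] at h4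
    have h5 := congrFun h i1
    simp only [Pi.zero_apply] at h5
    rw [he0, ← h4, coeff_natDegree, leadingCoeff_eq_zero] at h5
    exact hi1 h5
  have hqd : (qf (A.map C) w').natDegree = 2 * e := by
    refine le_antisymm (qf_natDegree A w' e hle) (le_natDegree_of_ne_zero ?_)
    rw [qf_coeff A w' e hle]
    exact hani _ hlead
  have hq0 : qf (A.map C) w' ≠ 0 := by
    intro h
    have := qf_coeff A w' e hle
    rw [h, coeff_zero] at this
    exact hani _ hlead this.symm
  obtain ⟨h, hh⟩ := hqw'
  have hh0 : h ≠ 0 := by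
    rintro rfl
    exact hq0 (by rw [hh, mul_zero])
  have hsum : 2 * e = p.natDegree + h.natDegree := by
    rw [← hqd, hh, natDegree_mul hp.ne_zero hh0]
  have hem : e < p.natDegree := by
    rw [he, Finset.sup_lt_iff (by
      have := hp.natDegree_pos
      exact this)]
    intro i _
    by_cases hi : w' i = 0
    · rw [hi, natDegree_zero]
      exact hp.natDegree_pos
    · have h1 : (w' i).natDegree ≤ (w i).natDegree := by
        rw [hww' i, natDegree_mul hg hi]
        omega
      have hwi : w i ≠ 0 := by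
        rw [hww' i]
        exact mul_ne_zero hg hi
      have h2 := hwd i
      rw [degree_eq_natDegree hwi, degree_eq_natDegree hp.ne_zero] at h2
      have h3 : (w i).natDegree < p.natDegree := by exact_mod_cast h2
      omega
  have hho : Odd h.natDegree := by
    by_contra hc
    rw [Nat.not_odd_iff_even] at hc
    have h1 : Odd (p.natDegree + h.natDegree) := hodd.add_even hc
    rw [← hsum] at h1
    exact (Nat.not_odd_iff_even.2 (even_two_mul e)) h1
  obtain ⟨p', hp', hp'h, hp'o⟩ := exists_odd_factor h hho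
  have hp'd : p'.natDegree ≤ h.natDegree := natDegree_le_of_dvd hp'h hh0
  have hex : ∃ i, ¬ p' ∣ w' i := by
    by_contra hc
    push_neg at hc
    exact hp'.not_isUnit (hcop p' hc)
  obtain ⟨x, hx, hx0⟩ := ih p'.natDegree (by omega) p' hp' hp'o w' hex
    (hp'h.trans (hh ▸ dvd_mul_left h p)) rfl
  exact hani x hx hx0

end Pool.Agent.H58.S13
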