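import Pool.Agent.H58.S13.ClassD
import Pool.Agent.H48.S13.Loc
import Pool.Agent.H89.HM.Qf

/-!
# S13: Hasse-Minkowski for quaternary forms of square determinant, from approximate zeros
-/

set_option autoImplicit false

open scoped NumberField
open IsDedekindDomain

noncomputable section

namespace Pool.Agent.H58.S13

open Matrix Polynomial H63.MA Pool.Agent.H48.S13

section Val

variable {K : Type*} [Field K] {Γ : Type*} [LinearOrderedCommGroupWithZero Γ] (v : Valuation K Γ)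

/-- if `β` is almost a square -/
theorem sq_app (h2 : (2 : K) ≠ 0) (α β : K) (hα : α ≠ 0) (hβ : β ≠ 0) (η : Γ) (hη : η ≠ 0) :
    ∃ l : Γ, l ≠ 0 ∧ l ≤ v β ∧ ∀ r : K, v (r ^ 2 - β) < l → ∃ S T : K, v (α * (S ^ 2 - β * T ^ 2) - 1) < η := by
  have ha : v α ≠ 0 := (Valuation.ne_zero_iff v).2 hα
  have hb : v β ≠ 0 := (Valuation.ne_zero_iff v).2 hβ
  obtain ⟨k, hk⟩ : ∃ k : Γ, k = max 1 (v α * (v (1 / α - 1) ^ 2 / (v 2 ^ 2 * v β))) := ⟨_, rfl⟩
  have hk1 : 1 ≤ k := hk ▸ le_max_left _ _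
  have hk0 : k ≠ 0 := (lt_of_lt_of_le zero_lt_one hk1).ne'
  refine ⟨min (v β) (η / k), ?_, min_le_left _ _, ?_⟩
  · rcases min_choice (v β) (η / k) with h | h
    · rw [h]; exact hb
    · rw [h]; exact div_ne_zero hη hk0
  intro r hr
  have hr1 : v (r ^ 2 - β) < v β := lt_of_lt_of_le hr (min_le_left _ _)
  have hr2 : v (r ^ 2 - β) < η / k := lt_of_lt_of_le hr (min_le_right _ _)
  have hvr : v (r ^ 2) = v β := by
    have h := Valuation.map_add_eq_of_lt_left v hr1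
    rwa [add_sub_cancel] at h
  have hr0 : r ≠ 0 := by
    rintro rfl
    rw [zero_pow two_ne_zero, map_zero] at hvr
    exact hb hvr.symm
  refine ⟨(1 / α + 1) / 2, (1 / α - 1) / (2 * r), ?_⟩
  have e : α * (((1 / α + 1) / 2) ^ 2 - β * ((1 / α - 1) / (2 * r)) ^ 2) - 1 =
      (α * ((1 / α - 1) ^ 2 / (2 ^ 2 * r ^ 2))) * (r ^ 2 - β) := by
    field_simp
    ring
  rw [e, map_mul]
  have e2 : v (α * ((1 / α - 1) ^ 2 / (2 ^ 2 * r ^ 2))) = v α * (v (1 / α - 1) ^ 2 / (v 2 ^ 2 * v β)) := by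
    rw [map_mul, map_div₀, map_mul, map_pow, map_pow, hvr]
  rw [e2]
  have h3 : v α * (v (1 / α - 1) ^ 2 / (v 2 ^ 2 * v β)) ≤ k := hk ▸ le_max_right _ _
  calc v α * (v (1 / α - 1) ^ 2 / (v 2 ^ 2 * v β)) * v (r ^ 2 - β)
      ≤ k * v (r ^ 2 - β) := mul_le_mul_left h3 _
    _ < k * (η / k) := mul_lt_mul_of_pos_left hr2 (zero_lt_iff.2 hk0)
    _ = η := mul_div_cancel₀ _ hk0

/-- from approximate zeros of `x² - α y² - β z² + αβ t²` -/
theorem four_app (h2 : (2 : K) ≠ 0) (α β : K) (hα : α ≠ 0) (hβ : β ≠ 0) (ρ : Γ) (hρ : ρ ≠ 0) (η : Γ) (hη : η ≠ 0) :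
    ∃ γ : Γ, γ ≠ 0 ∧ ∀ x y z t : K, (ρ ≤ v x ∨ ρ ≤ v y ∨ ρ ≤ v z ∨ ρ ≤ v t) →
      v (x ^ 2 - α * y ^ 2 - β * z ^ 2 + α * β * t ^ 2) < γ → ∃ S T : K, v (α * (S ^ 2 - β * T ^ 2) - 1) < η := by
  have ha : v α ≠ 0 := (Valuation.ne_zero_iff v).2 hα
  have hb : v β ≠ 0 := (Valuation.ne_zero_iff v).2 hβ
  obtain ⟨l, hl0, hlb, hl⟩ := sq_app v h2 α β hα hβ η hη
  obtain ⟨m, hm⟩ : ∃ m : Γ, m = min 1 (v β)⁻¹ := ⟨_, rfl⟩
  have hm1 : m ≤ 1 := hm ▸ min_le_left _ _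
  have hmb : v β * m ≤ 1 := by
    calc v β * m ≤ v β * (v β)⁻¹ := mul_le_mul_right (hm ▸ min_le_right _ _) _
      _ = 1 := mul_inv_cancel₀ hb
  have hm0 : m ≠ 0 := by
    rcases min_choice 1 (v β)⁻¹ with h | h
    · rw [hm, h]; exact one_ne_zero
    · rw [hm, h]; exact inv_ne_zero hb
  obtain ⟨δ, hδ⟩ : ∃ δ : Γ, δ = ρ * m := ⟨_, rfl⟩
  have hδ0 : δ ≠ 0 := hδ ▸ mul_ne_zero hρ hm0
  have hδρ : δ ≤ ρ := by
    rw [hδ]
    calc ρ * m ≤ ρ * 1 := mul_le_mul_right hm1 _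
      _ = ρ := mul_one _
  have hbδ : v β * δ ^ 2 ≤ ρ ^ 2 := by
    calc v β * δ ^ 2 = (v β * m) * m * ρ ^ 2 := by rw [hδ, mul_pow, mul_comm (ρ ^ 2), pow_two m, mul_assoc, mul_assoc, mul_assoc]
      _ ≤ 1 * 1 * ρ ^ 2 := by gcongr
      _ = ρ ^ 2 := by rw [one_mul, one_mul]
  obtain ⟨A, hA⟩ : ∃ A : Γ, A = max 1 (v α) := ⟨_, rfl⟩
  have hA1 : 1 ≤ A := hA ▸ le_max_left _ _
  have hAa : v α ≤ A := hA ▸ le_max_right _ _
  have hA0 : A ≠ 0 := (lt_of_lt_of_le zero_lt_one hA1).ne'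
  obtain ⟨θ, hθ⟩ : ∃ θ : Γ, θ = l * δ ^ 2 / A := ⟨_, rfl⟩
  have hlδ0 : l * δ ^ 2 ≠ 0 := mul_ne_zero hl0 (pow_ne_zero 2 hδ0)
  have hθ0 : θ ≠ 0 := hθ ▸ div_ne_zero hlδ0 hA0
  have hAθ : A * θ = l * δ ^ 2 := by rw [hθ, mul_div_cancel₀ _ hA0]
  have hθl : θ ≤ l * δ ^ 2 := by
    rw [← hAθ]
    calc θ = 1 * θ := (one_mul _).symm
      _ ≤ A * θ := mul_le_mul_left hA1 _
  have hlρ : l * δ ^ 2 ≤ ρ ^ 2 := le_trans (mul_le_mul_left hlb _) hbδ
  have hsq : ∀ p q : K, δ ≤ v q → v (p ^ 2 - β * q ^ 2) < l * δ ^ 2 →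
      ∃ S T : K, v (α * (S ^ 2 - β * T ^ 2) - 1) < η := by
    intro p q hq hpq
    have hvq : v q ≠ 0 := (lt_of_lt_of_le (zero_lt_iff.2 hδ0) hq).ne'
    have hq0 : q ≠ 0 := (Valuation.ne_zero_iff v).1 hvq
    refine hl (p / q) ?_
    have e : (p / q) ^ 2 - β = (p ^ 2 - β * q ^ 2) / q ^ 2 := by field_simp
    rw [e, map_div₀, map_pow, div_lt_iff₀ (zero_lt_iff.2 (pow_ne_zero 2 hvq))]
    exact lt_of_lt_of_le hpq (by gcongr)
  refine ⟨min (l * δ ^ 2) (η * (v α * θ)), ?_, ?_⟩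
  · rcases min_choice (l * δ ^ 2) (η * (v α * θ)) with h | h
    · rw [h]; exact hlδ0
    · rw [h]; exact mul_ne_zero hη (mul_ne_zero ha hθ0)
  intro x y z t hbig hsmall
  have hs1 := lt_of_lt_of_le hsmall (min_le_left _ _)
  have hs2 := lt_of_lt_of_le hsmall (min_le_right _ _)
  obtain ⟨ε, hε⟩ : ∃ ε : K, ε = x ^ 2 - α * y ^ 2 - β * z ^ 2 + α * β * t ^ 2 := ⟨_, rfl⟩
  rw [← hε] at hs1 hs2
  obtain ⟨D, hD⟩ : ∃ D : K, D = y ^ 2 - β * t ^ 2 := ⟨_, rfl⟩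
  by_cases hDθ : θ ≤ v D
  · have hvD : v D ≠ 0 := (lt_of_lt_of_le (zero_lt_iff.2 hθ0) hDθ).ne'
    have hD0 : D ≠ 0 := (Valuation.ne_zero_iff v).1 hvD
    refine ⟨(x * y + β * z * t) / (α * D), (x * t + z * y) / (α * D), ?_⟩
    have e : α * (((x * y + β * z * t) / (α * D)) ^ 2 - β * ((x * t + z * y) / (α * D)) ^ 2) - 1 = ε / (α * D) := by
      have h4 : (x * y + β * z * t) ^ 2 - β * (x * t + z * y) ^ 2 = (α * D + ε) * D := by
        rw [hD, hε]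
        ring
      rw [div_pow, div_pow, ← mul_div_assoc, ← sub_div, h4]
      field_simp
      ring
    rw [e, map_div₀, map_mul, div_lt_iff₀ (zero_lt_iff.2 (mul_ne_zero ha hvD))]
    exact lt_of_lt_of_le hs2 (by gcongr)
  · have hDθ' : v D < θ := not_le.1 hDθ
    have hxz : v (x ^ 2 - β * z ^ 2) < l * δ ^ 2 := by
      have e : x ^ 2 - β * z ^ 2 = α * D + ε := by rw [hD, hε]; ring
      rw [e]
      refine Valuation.map_add_lt v ?_ hs1
      rw [map_mul]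
      calc v α * v D < v α * θ := mul_lt_mul_of_pos_left hDθ' (zero_lt_iff.2 ha)
        _ ≤ A * θ := mul_le_mul_left hAa _
        _ = l * δ ^ 2 := hAθ
    have hyt : v (y ^ 2 - β * t ^ 2) < l * δ ^ 2 := by
      rw [← hD]
      exact lt_of_lt_of_le hDθ' hθl
    by_cases ht : δ ≤ v t
    · exact hsq y t ht hyt
    by_cases hz : δ ≤ v z
    · exact hsq x z hz hxz
    exfalso
    have hsm : ∀ p q : K, v q < δ → v (p ^ 2 - β * q ^ 2) < l * δ ^ 2 → v p < ρ := by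
      intro p q hq hpq
      have h5 : v (p ^ 2) < ρ ^ 2 := by
        have e : p ^ 2 = (p ^ 2 - β * q ^ 2) + β * q ^ 2 := by ring
        rw [e]
        refine Valuation.map_add_lt v (lt_of_lt_of_le hpq hlρ) ?_
        rw [map_mul, map_pow]
        calc v β * v q ^ 2 < v β * δ ^ 2 := by
              refine mul_lt_mul_of_pos_left ?_ (zero_lt_iff.2 hb)
              exact pow_lt_pow_left₀ hq zero_le two_ne_zero
          _ ≤ ρ ^ 2 := hbδ
      rw [map_pow] at h5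
      exact lt_of_pow_lt_pow_left₀ 2 zero_le h5
    have ht' := not_le.1 ht
    have hz' := not_le.1 hz
    rcases hbig with h | h | h | h
    · exact absurd h (not_le.2 (hsm x z hz' hxz))
    · exact absurd h (not_le.2 (hsm y t ht' hyt))
    · exact absurd (lt_of_lt_of_le hz' hδρ) (not_lt.2 h)
    · exact absurd (lt_of_lt_of_le ht' hδρ) (not_lt.2 h)

end Val

/-- the matrix form -/
theorem mat_app {M : Type*} [Field M] (v : Valuation M (WithZero (Multiplicative ℤ))) (h2 : (2 : M) ≠ 0)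
    (S P : Matrix (Fin 4) (Fin 4) M) (d : Fin 4 → M) (s : M) (hs : s ≠ 0) (hdet : S.det = s ^ 2) (hP : P.det ≠ 0)
    (hd : Pᵀ * S * P = diagonal d) (happ : App v S) (η : WithZero (Multiplicative ℤ)) (hη : η ≠ 0) :
    ∃ U T : M, v (-(d 0 * d 1) * (U ^ 2 - -(d 0 * d 2) * T ^ 2) - 1) < η := by
  have hprod : d 0 * d 1 * d 2 * d 3 = (P.det * s) ^ 2 := by
    have h1 := congrArg Matrix.det hd
    rw [det_mul, det_mul, det_transpose, hdet, det_diagonal, Fin.prod_univ_four] at h1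
    rw [← h1]
    ring
  have hne : d 0 * d 1 * d 2 * d 3 ≠ 0 := by
    rw [hprod]
    exact pow_ne_zero 2 (mul_ne_zero hP hs)
  have hd3 : d 3 ≠ 0 := right_ne_zero_of_mul hne
  have hd012 := left_ne_zero_of_mul hne
  have hd2 : d 2 ≠ 0 := right_ne_zero_of_mul hd012
  have hd01 := left_ne_zero_of_mul hd012
  have hd1 : d 1 ≠ 0 := right_ne_zero_of_mul hd01
  have hd0 : d 0 ≠ 0 := left_ne_zero_of_mul hd01
  obtain ⟨q, hq⟩ : ∃ q, q = P.det * s / (d 0 * d 1 * d 2) := ⟨_, rfl⟩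
  have hq0 : q ≠ 0 := hq ▸ div_ne_zero (mul_ne_zero hP hs) hd012
  have hα0 : -(d 0 * d 1) ≠ 0 := neg_ne_zero.2 (mul_ne_zero hd0 hd1)
  have hβ0 : -(d 0 * d 2) ≠ 0 := neg_ne_zero.2 (mul_ne_zero hd0 hd2)
  have hv : ∀ {a : M}, a ≠ 0 → v a ≠ 0 := fun h => (Valuation.ne_zero_iff v).2 h
  obtain ⟨c, hc1, hc⟩ := exists_bound v P
  have hc0 : c ≠ 0 := (lt_of_lt_of_le zero_lt_one hc1).ne'
  obtain ⟨w, hw⟩ : ∃ w : WithZero (Multiplicative ℤ), w = min (v (d 0)) (min 1 (v q)) := ⟨_, rfl⟩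
  have hw0 : w ≠ 0 := by
    rw [hw]
    rcases min_choice (v (d 0)) (min 1 (v q)) with h | h
    · rw [h]; exact hv hd0
    · rw [h]
      rcases min_choice 1 (v q) with h | h
      · rw [h]; exact one_ne_zero
      · rw [h]; exact hv hq0
  have hwd : w ≤ v (d 0) := hw ▸ min_le_left _ _
  have hw1 : w ≤ 1 := hw ▸ (min_le_right _ _).trans (min_le_left _ _)
  have hwq : w ≤ v q := hw ▸ (min_le_right _ _).trans (min_le_right _ _)
  obtain ⟨γ, hγ0, hγ⟩ := four_app v h2 (-(d 0 * d 1)) (-(d 0 * d 2)) hα0 hβ0 (w * c⁻¹)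
    (mul_ne_zero hw0 (inv_ne_zero hc0)) η hη
  obtain ⟨x, hx1, ⟨i, hi⟩, hx⟩ := happ (γ / v (d 0)) (div_ne_zero hγ0 (hv hd0))
  have hPu : IsUnit P.det := isUnit_iff_ne_zero.2 hP
  obtain ⟨e, he⟩ : ∃ e, e = P⁻¹ *ᵥ x := ⟨_, rfl⟩
  have hxe : x = P *ᵥ e := by
    rw [he, mulVec_mulVec, Matrix.mul_nonsing_inv _ hPu, one_mulVec]
  have hbig : ∃ j, c⁻¹ ≤ v (e j) := by
    by_contra hcon
    push Not at hcon
    have h1 : v (x i) < 1 := by
      rw [hxe, mulVec, dotProduct]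
      refine Valuation.map_sum_lt v one_ne_zero fun j _ => ?_
      rw [map_mul]
      calc v (P i j) * v (e j) ≤ c * v (e j) := mul_le_mul_left (hc i j) _
        _ < c * c⁻¹ := mul_lt_mul_of_pos_left (hcon j) (zero_lt_iff.2 hc0)
        _ = 1 := mul_inv_cancel₀ hc0
    exact absurd hi h1.ne
  have hqf : (d 0 * e 0) ^ 2 - -(d 0 * d 1) * e 1 ^ 2 - -(d 0 * d 2) * e 2 ^ 2 +
      -(d 0 * d 1) * -(d 0 * d 2) * (q * e 3) ^ 2 = d 0 * qf S x := by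
    have h5 : (-(d 0 * d 1)) * (-(d 0 * d 2)) * q ^ 2 = d 0 * d 3 := by
      rw [hq, div_pow, ← hprod]
      field_simp
    have h4 : qf S x = d 0 * e 0 ^ 2 + d 1 * e 1 ^ 2 + d 2 * e 2 ^ 2 + d 3 * e 3 ^ 2 := by
      rw [hxe, Pool.Agent.H89.HM.qf_mulVec, hd]
      unfold qf
      rw [dotProduct, Fin.sum_univ_four]
      simp only [mulVec_diagonal]
      ring
    rw [h4, mul_pow q, ← mul_assoc, h5]
    ring
  refine hγ (d 0 * e 0) (e 1) (e 2) (q * e 3) ?_ ?_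
  · obtain ⟨j, hj⟩ := hbig
    fin_cases j
    · left
      rw [map_mul]
      exact mul_le_mul' hwd hj
    · right; left
      calc w * c⁻¹ ≤ 1 * v (e 1) := mul_le_mul' hw1 hj
        _ = v (e 1) := one_mul _
    · right; right; left
      calc w * c⁻¹ ≤ 1 * v (e 2) := mul_le_mul' hw1 hj
        _ = v (e 2) := one_mul _
    · right; right; right
      rw [map_mul]
      exact mul_le_mul' hwq hj
  · rw [hqf, map_mul]
    calc v (d 0) * v (qf S x) < v (d 0) * (γ / v (d 0)) := mul_lt_mul_of_pos_left hx (zero_lt_iff.2 (hv hd0))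
      _ = γ := mul_div_cancel₀ _ (hv hd0)

/-- **Hasse-Minkowski** for quaternary forms of square determinant over number fields, from approximate zeros -/
theorem hm4 {M : Type} [Field M] [NumberField M] (S : Matrix (Fin 4) (Fin 4) M) (hS : Sᵀ = S) (s : M) (hs : s ≠ 0)
    (hdet : S.det = s ^ 2) (hf : ∀ w : Pl M, App (w.valuation M) S)
    (hreal : ∀ σ : M →+* ℝ, ∃ x : Fin 4 → ℝ, x ≠ 0 ∧ qf (S.map σ) x = 0) :
    ∃ x : Fin 4 → M, x ≠ 0 ∧ qf S x = 0 := by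
  obtain ⟨P, d, hP, hd⟩ := Pool.Agent.H89.HM.exists_diag (two_ne_zero (α := M)) S hS
  have hprod : d 0 * d 1 * d 2 * d 3 = (P.det * s) ^ 2 := by
    have h1 := congrArg Matrix.det hd
    rw [det_mul, det_mul, det_transpose, hdet, det_diagonal, Fin.prod_univ_four] at h1
    rw [← h1]
    ring
  have hne : d 0 * d 1 * d 2 * d 3 ≠ 0 := by
    rw [hprod]
    exact pow_ne_zero 2 (mul_ne_zero hP hs)
  have hd012 := left_ne_zero_of_mul hne
  have hd2 : d 2 ≠ 0 := right_ne_zero_of_mul hd012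
  have hd01 := left_ne_zero_of_mul hd012
  have hd1 : d 1 ≠ 0 := right_ne_zero_of_mul hd01
  have hd0 : d 0 ≠ 0 := left_ne_zero_of_mul hd01
  have hα0 : -(d 0 * d 1) ≠ 0 := neg_ne_zero.2 (mul_ne_zero hd0 hd1)
  have hβ0 : -(d 0 * d 2) ≠ 0 := neg_ne_zero.2 (mul_ne_zero hd0 hd2)
  obtain ⟨U, T, hST⟩ := Pool.Agent.H89.HM.conic (Units.mk0 _ hα0) (Units.mk0 _ hβ0)
    (fun w η hη => mat_app (w.valuation M) two_ne_zero S P d s hs hdet hP hd (hf w) η hη) (by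
    intro σ
    obtain ⟨x, hx, hq⟩ := hreal σ
    obtain ⟨U, T, h⟩ := Pool.Agent.H89.HM.diag_norm two_ne_zero σ S P d s hs hdet hP hd x hx hq
    rw [Units.val_mk0, Units.val_mk0]
    by_contra hcon
    push Not at hcon
    have h1 : 0 ≤ U ^ 2 - σ (-(d 0 * d 2)) * T ^ 2 := by nlinarith [sq_nonneg U, sq_nonneg T, hcon.2]
    have h3 := mul_nonpos_of_nonpos_of_nonneg hcon.1 h1
    rw [h] at h3
    exact absurd h3 (not_le.2 one_pos))
  rw [Units.val_mk0, Units.val_mk0] at hST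
  obtain ⟨c, hc⟩ : ∃ c : Fin 4 → M, c = ![U / d 0, 1, T, 0] := ⟨_, rfl⟩
  have hPu : IsUnit P.det := isUnit_iff_ne_zero.2 hP
  refine ⟨P *ᵥ c, ?_, ?_⟩
  · intro h0
    have h1 : c = 0 := by
      have h3 := congrArg (fun z => P⁻¹ *ᵥ z) h0
      simp only [mulVec_mulVec, mulVec_zero] at h3
      rwa [Matrix.nonsing_inv_mul _ hPu, one_mulVec] at h3
    have h4 := congrFun h1 1
    rw [hc] at h4
    exact one_ne_zero h4
  · rw [Pool.Agent.H89.HM.qf_mulVec, hd]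
    unfold qf
    rw [dotProduct, Fin.sum_univ_four]
    simp only [mulVec_diagonal]
    have e0 : c 0 = U / d 0 := by rw [hc]; rfl
    have e1 : c 1 = 1 := by rw [hc]; rfl
    have e2 : c 2 = T := by rw [hc]; rfl
    have e3 : c 3 = 0 := by rw [hc]; rfl
    rw [e0, e1, e2, e3]
    field_simp
    linear_combination hST

end Pool.Agent.H58.S13
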