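import Pool.Agent.H58.S13.Wap

/-!
# S13: a local norm from approximate zeros of a ternary form
-/

set_option autoImplicit false

open scoped NumberField
open IsDedekindDomain

noncomputable section

namespace Pool.Agent.H58.S13

open H63.MA

variable {K : Type} [Field K] [NumberField K]

theorem ap_norm (v : Pl K) (b c : Kˣ) (h : App3 v (b : K) (c : K)) (γ : WithZero (Multiplicative ℤ)) (hγ : γ ≠ 0) :
    ∃ S T : K, v.valuation K ((S ^ 2 - c * T ^ 2) / b - 1) < γ := by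
  obtain ⟨ν, hν⟩ : ∃ ν, ν = v.valuation K := ⟨_, rfl⟩
  have hb0 : ν (b : K) ≠ 0 := by rw [Valuation.ne_zero_iff]; exact b.ne_zero
  have hc0 : ν (c : K) ≠ 0 := by rw [Valuation.ne_zero_iff]; exact c.ne_zero
  have h20 : ν (2 : K) ≠ 0 := by rw [Valuation.ne_zero_iff]; exact two_ne_zero
  obtain ⟨κ, hκ⟩ : ∃ κ, κ = min 1 (ν (c : K))⁻¹ := ⟨_, rfl⟩
  have hκ0 : 0 < κ := by
    rw [hκ]
    exact lt_min zero_lt_one (zero_lt_iff.2 (inv_ne_zero hc0))
  obtain ⟨C1, hC1⟩ : ∃ C1, C1 = ν (((b : K) - 1) ^ 2 / (2 ^ 2 * c * b)) := ⟨_, rfl⟩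
  have hm0 : 0 < max C1 1 := lt_of_lt_of_le zero_lt_one (le_max_right _ _)
  obtain ⟨δ, hδ⟩ : ∃ δ, δ = min (min 1 (ν (b : K))) (min (κ * ν (c : K)) (κ * (γ * (max C1 1)⁻¹))) := ⟨_, rfl⟩
  have hδ0 : 0 < δ := by
    rw [hδ]
    refine lt_min (lt_min zero_lt_one (zero_lt_iff.2 hb0)) (lt_min ?_ ?_)
    · exact mul_pos hκ0 (zero_lt_iff.2 hc0)
    · exact mul_pos hκ0 (mul_pos (zero_lt_iff.2 hγ) (inv_pos.2 hm0))
  have hδ1 : δ ≤ 1 := by rw [hδ]; exact (min_le_left _ _).trans (min_le_left _ _)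
  have hδb : δ ≤ ν (b : K) := by rw [hδ]; exact (min_le_left _ _).trans (min_le_right _ _)
  have hδc : δ ≤ κ * ν (c : K) := by rw [hδ]; exact (min_le_right _ _).trans (min_le_left _ _)
  have hδg : δ ≤ κ * (γ * (max C1 1)⁻¹) := by rw [hδ]; exact (min_le_right _ _).trans (min_le_right _ _)
  obtain ⟨x, y, z, hone, hxyz⟩ := h (min δ (γ * δ)) (by
    refine (lt_min hδ0 (mul_pos (zero_lt_iff.2 hγ) hδ0)).ne')
  rw [← hν] at hone hxyz ⊢
  have hq1 : ν (x ^ 2 - b * y ^ 2 - c * z ^ 2) < δ := lt_of_lt_of_le hxyz (min_le_left _ _)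
  have hq2 : ν (x ^ 2 - b * y ^ 2 - c * z ^ 2) < γ * δ := lt_of_lt_of_le hxyz (min_le_right _ _)
  by_cases hby : δ ≤ ν ((b : K) * y ^ 2)
  · -- division by `y`
    have hy : y ≠ 0 := by
      rintro rfl
      rw [zero_pow two_ne_zero, mul_zero, map_zero] at hby
      exact absurd hδ0 (not_lt.2 hby)
    refine ⟨x / y, z / y, ?_⟩
    have e1 : ((x / y) ^ 2 - c * (z / y) ^ 2) / b - 1 = (x ^ 2 - b * y ^ 2 - c * z ^ 2) / (b * y ^ 2) := by
      have := b.ne_zero
      field_simp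
      ring
    rw [e1, map_div₀, div_lt_iff₀ (lt_of_lt_of_le hδ0 hby)]
    refine lt_of_lt_of_le hq2 ?_
    gcongr
  · -- `c` is nearly a square
    push Not at hby
    have hxz : ν (x ^ 2 - c * z ^ 2) < δ := by
      have e1 : x ^ 2 - c * z ^ 2 = (x ^ 2 - b * y ^ 2 - c * z ^ 2) + b * y ^ 2 := by ring
      rw [e1]
      exact lt_of_le_of_lt (Valuation.map_add _ _ _) (max_lt hq1 hby)
    have hy1 : ¬ 1 ≤ ν y := by
      intro h1
      have h2 : ν (b : K) ≤ ν ((b : K) * y ^ 2) := by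
        rw [map_mul, map_pow]
        exact le_mul_of_one_le_right zero_le (one_le_pow₀ h1)
      exact absurd (lt_of_lt_of_le hby hδb) (not_lt.2 h2)
    have hz2 : κ ≤ ν (z ^ 2) := by
      by_cases hz : 1 ≤ ν z
      · have h1 : κ ≤ 1 := by rw [hκ]; exact min_le_left _ _
        refine h1.trans ?_
        rw [map_pow]
        exact one_le_pow₀ hz
      · have hx : 1 ≤ ν x := by
          rcases hone with h1 | h1 | h1
          · exact h1
          · exact absurd h1 hy1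
          · exact absurd h1 hz
        have h3 : ν (c * z ^ 2) = ν (x ^ 2) := by
          have e1 : (c : K) * z ^ 2 = x ^ 2 - (x ^ 2 - c * z ^ 2) := by ring
          rw [e1]
          refine Valuation.map_sub_eq_of_lt_left _ ?_
          refine lt_of_lt_of_le hxz (hδ1.trans ?_)
          rw [map_pow]
          exact one_le_pow₀ hx
        have h4 : 1 ≤ ν (c : K) * ν (z ^ 2) := by
          rw [← map_mul, h3, map_pow]
          exact one_le_pow₀ hx
        have h5 : (ν (c : K))⁻¹ ≤ ν (z ^ 2) := by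
          rw [inv_le_iff_one_le_mul₀ (zero_lt_iff.2 hc0), mul_comm]
          exact h4
        exact (by rw [hκ]; exact min_le_right _ _ : κ ≤ (ν (c : K))⁻¹).trans h5
    have hz0 : z ≠ 0 := by
      rintro rfl
      rw [zero_pow two_ne_zero, map_zero] at hz2
      exact absurd hκ0 (not_lt.2 hz2)
    obtain ⟨e, he⟩ : ∃ e, e = x / z := ⟨_, rfl⟩
    have hec : ν (e ^ 2 - c) < ν (c : K) ∧ ν (e ^ 2 - c) < γ * (max C1 1)⁻¹ := by
      have e1 : e ^ 2 - c = (x ^ 2 - c * z ^ 2) / z ^ 2 := by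
        rw [he]
        field_simp
      have hzp : 0 < ν (z ^ 2) := lt_of_lt_of_le hκ0 hz2
      rw [e1, map_div₀]
      constructor
      · rw [div_lt_iff₀ hzp]
        refine lt_of_lt_of_le hxz (hδc.trans ?_)
        rw [mul_comm]
        gcongr
      · rw [div_lt_iff₀ hzp]
        refine lt_of_lt_of_le hxz (hδg.trans ?_)
        rw [mul_comm]
        gcongr
    have he2 : ν (e ^ 2) = ν (c : K) := by
      have e1 : e ^ 2 = c + (e ^ 2 - c) := by ring
      rw [e1]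
      exact Valuation.map_add_eq_of_lt_left _ hec.1
    have he0 : e ≠ 0 := by
      rintro rfl
      rw [zero_pow two_ne_zero, map_zero] at he2
      exact hc0 he2.symm
    refine ⟨(b + 1) / 2, (b - 1) / (2 * e), ?_⟩
    have h2K : (2 : K) ≠ 0 := two_ne_zero
    have hbK := b.ne_zero
    have hcK := c.ne_zero
    have e2 : ((((b : K) + 1) / 2) ^ 2 - c * ((b - 1) / (2 * e)) ^ 2) / b - 1 =
        (e ^ 2 - c) * ((((b : K) - 1) ^ 2 / (2 ^ 2 * c * b)) * (c / e ^ 2)) := by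
      field_simp
      ring
    rw [e2, map_mul, map_mul, map_div₀ ν (c : K) (e ^ 2), he2, div_self hc0, mul_one, ← hC1]
    calc ν (e ^ 2 - c) * C1 ≤ ν (e ^ 2 - c) * max C1 1 := by
          gcongr
          exact le_max_left _ _
      _ < γ * (max C1 1)⁻¹ * max C1 1 := mul_lt_mul_of_pos_right hec.2 hm0
      _ = γ := by rw [inv_mul_cancel_right₀ hm0.ne']

end Pool.Agent.H58.S13
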