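import Pool.Agent.H58.S13.Fields

/-!
# S13: class (D), reduction of the existence of a point to isotropy of a quaternary form of square discriminant
-/

set_option autoImplicit false

namespace Pool.Agent.H58.S13

open Matrix Polynomial

universe u

theorem pen_tower {k K M : Type*} [CommRing k] [CommRing K] [CommRing M] [Algebra k K] [Algebra K M] [Algebra k M]
    [IsScalarTower k K M] {n : Type*} (A B : Matrix n n k) (t : M) :
    (A.map (algebraMap k K)).map (algebraMap K M) + t • (B.map (algebraMap k K)).map (algebraMap K M) = pen A B t := by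
  unfold pen
  rw [Matrix.map_map, Matrix.map_map, IsScalarTower.algebraMap_eq k K M]
  rfl

/-- the conjugation of `K(√δ)` -/
theorem exists_conj {K : Type*} [Field K] (h2 : (2 : K) ≠ 0) (δ : K) (hδ : ¬ IsSquare δ) :
    ∃ (_ : Fact (Irreducible (X ^ 2 - C δ : K[X]))) (r : AdjoinRoot (X ^ 2 - C δ : K[X]))
      (σ : AdjoinRoot (X ^ 2 - C δ : K[X]) ≃ₐ[K] AdjoinRoot (X ^ 2 - C δ : K[X])),
      r ^ 2 = algebraMap K _ δ ∧ σ r = -r ∧ (∀ z, σ (σ z) = z) ∧ (∀ z, σ z = z → ∃ y : K, algebraMap K _ y = z) ∧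
        r ≠ 0 ∧ Module.Finite K (AdjoinRoot (X ^ 2 - C δ : K[X])) := by
  have hirr : Irreducible (X ^ 2 - C δ : K[X]) := by
    refine X_pow_sub_C_irreducible_of_prime Nat.prime_two fun b hb => hδ ⟨b, ?_⟩
    rw [← hb, sq]
  have hF : Fact (Irreducible (X ^ 2 - C δ : K[X])) := ⟨hirr⟩
  have hmon : (X ^ 2 - C δ : K[X]).Monic := by monicity!
  have hdeg : (X ^ 2 - C δ : K[X]).natDegree = 2 := by compute_degree!
  obtain ⟨r, hr⟩ : ∃ r, r = AdjoinRoot.root (X ^ 2 - C δ : K[X]) := ⟨_, rfl⟩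
  have hr2 : r ^ 2 = algebraMap K _ δ := by
    have h1 := AdjoinRoot.eval₂_root (X ^ 2 - C δ : K[X])
    rw [← hr, eval₂_sub, eval₂_X_pow, eval₂_C, sub_eq_zero] at h1
    exact h1
  have hroot : eval₂ (↑(Algebra.ofId K (AdjoinRoot (X ^ 2 - C δ : K[X]))) : K →+* AdjoinRoot (X ^ 2 - C δ : K[X])) (-r)
      (X ^ 2 - C δ : K[X]) = 0 := by
    rw [eval₂_sub, eval₂_X_pow, eval₂_C, neg_sq, hr2, sub_eq_zero]
    rfl
  obtain ⟨f, hf⟩ : ∃ f : AdjoinRoot (X ^ 2 - C δ : K[X]) →ₐ[K] AdjoinRoot (X ^ 2 - C δ : K[X]),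
      f (AdjoinRoot.root (X ^ 2 - C δ : K[X])) = -r :=
    ⟨AdjoinRoot.liftAlgHom (X ^ 2 - C δ : K[X]) (Algebra.ofId K _) (-r) hroot, AdjoinRoot.liftAlgHom_root _ _ _ _⟩
  rw [← hr] at hf
  have hff : f.comp f = AlgHom.id K _ := by
    apply AdjoinRoot.algHom_ext
    rw [← hr, AlgHom.comp_apply, hf, map_neg, hf, neg_neg]
    rfl
  obtain ⟨σ, hσ⟩ : ∃ σ : AdjoinRoot (X ^ 2 - C δ : K[X]) ≃ₐ[K] AdjoinRoot (X ^ 2 - C δ : K[X]), ∀ z, σ z = f z :=
    ⟨AlgEquiv.ofAlgHom f f hff hff, fun z => rfl⟩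
  have hδ0 : δ ≠ 0 := by
    rintro rfl
    exact hδ ⟨0, by ring⟩
  have hr0 : r ≠ 0 := by
    rintro rfl
    rw [zero_pow two_ne_zero] at hr2
    exact hδ0 ((map_eq_zero _).mp hr2.symm)
  refine ⟨hF, r, σ, hr2, by rw [hσ, hf], fun z => ?_, fun z hz => ?_, hr0, ?_⟩
  · rw [hσ, hσ]
    exact congrArg (fun g => g z) hff
  · obtain ⟨g, hg⟩ := AdjoinRoot.mk_surjective z
    obtain ⟨m, hm⟩ : ∃ m, m = g %ₘ (X ^ 2 - C δ : K[X]) := ⟨_, rfl⟩
    have h1 : AdjoinRoot.mk (X ^ 2 - C δ : K[X]) m = z := by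
      rw [← hg, hm, AdjoinRoot.mk_eq_mk]
      refine ⟨-(g /ₘ (X ^ 2 - C δ : K[X])), ?_⟩
      have := modByMonic_add_div g (X ^ 2 - C δ : K[X])
      linear_combination this
    have h2' : m.natDegree ≤ 1 := by
      have := natDegree_modByMonic_lt g hmon (by
        intro h
        rw [h, natDegree_one] at hdeg
        omega)
      rw [← hm, hdeg] at this
      omega
    have h3 : m = C (m.coeff 1) * X + C (m.coeff 0) := eq_X_add_C_of_natDegree_le_one h2'
    have h4 : z = algebraMap K _ (m.coeff 1) * r + algebraMap K _ (m.coeff 0) := by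
      rw [← h1]
      conv_lhs => rw [h3]
      rw [map_add, map_mul, AdjoinRoot.mk_C, AdjoinRoot.mk_C, AdjoinRoot.mk_X, hr]
      rfl
    have h5 : f z = algebraMap K _ (m.coeff 1) * (-r) + algebraMap K _ (m.coeff 0) := by
      rw [h4, map_add, map_mul, hf, AlgHom.commutes, AlgHom.commutes]
    rw [hσ, h5] at hz
    have h6 : 2 * (algebraMap K (AdjoinRoot (X ^ 2 - C δ : K[X])) (m.coeff 1) * r) = 0 := by
      linear_combination -h4 - hz
    have h7 : (2 : AdjoinRoot (X ^ 2 - C δ : K[X])) ≠ 0 := by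
      have h8 := (map_ne_zero (algebraMap K (AdjoinRoot (X ^ 2 - C δ : K[X])))).mpr h2
      rwa [map_ofNat] at h8
    have h9 := (mul_eq_zero.mp h6).resolve_left h7
    exact ⟨m.coeff 0, by rw [h4, h9, zero_add]⟩
  · exact (AdjoinRoot.powerBasis hirr.ne_zero).finite

theorem dis_map {R S : Type*} [CommRing R] [CommRing S] (φ : R →+* S) (a b c : R) :
    φ (dis a b c) = dis (φ a) (φ b) (φ c) := by
  unfold dis
  simp only [map_sub, map_add, map_mul, map_pow, map_ofNat]

/-- the derivative at a root -/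
theorem deriv_root_ne {k M : Type*} [Field k] [CharZero k] [Field M] [Algebra k M] (a b c : k)
    (hirr : Irreducible (cub a b c)) (t : M) (ht : aeval t (cub a b c) = 0) :
    3 * t ^ 2 + 2 * algebraMap k M a * t + algebraMap k M b ≠ 0 := by
  have hsep : (cub a b c).Separable := hirr.separable
  obtain ⟨u, v, huv⟩ := hsep
  have hd : aeval t (derivative (cub a b c)) = 3 * t ^ 2 + 2 * algebraMap k M a * t + algebraMap k M b := by
    unfold cub
    simp
    have h3 : algebraMap k M 2 = 2 := map_ofNat _ 2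
    rw [h3]
    ring
  intro h
  have h1 := congrArg (aeval t) huv
  rw [map_add, map_mul, map_mul, ht, hd, h, mul_zero, mul_zero, add_zero, map_one] at h1
  exact zero_ne_one h1

/-- **class (D)**: a point over `k` from an isotropic vector of a quaternary form of square discriminant over an extension of degree at most six -/
theorem class_D {k : Type u} [Field k] [CharZero k] (A B : Matrix (Fin 5) (Fin 5) k) (hA : Aᵀ = A) (hB : Bᵀ = B)
    (a b c : k) (hirr : Irreducible (cub a b c)) (hdvd : cub a b c ∣ (A.map C + (X : k[X]) • B.map C).det)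
    (hns : ¬ cub a b c ^ 2 ∣ (A.map C + (X : k[X]) • B.map C).det)
    (heps : ∀ i : Fin 5, ∃ u : AdjoinRoot (cub a b c),
      ((pen A B (AdjoinRoot.root (cub a b c))).submatrix i.succAbove i.succAbove).det =
        algebraMap k (AdjoinRoot (cub a b c)) (dis a b c) * u ^ 2)
    (HM : ∀ (M : Type u) [Field M] [Algebra k M] [FiniteDimensional k M] (t : M) (i : Fin 5) (s : M), s ≠ 0 →
      (pen A B t).det = 0 → (∀ z, (pen A B t) *ᵥ z = 0 → z ≠ 0 → qf (B.map (algebraMap k M)) z ≠ 0) →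
      ((pen A B t).submatrix i.succAbove i.succAbove).det = s ^ 2 →
      ∃ x : Fin 4 → M, x ≠ 0 ∧ qf ((pen A B t).submatrix i.succAbove i.succAbove) x = 0) :
    ∃ y : Fin 5 → k, y ≠ 0 ∧ qf A y = 0 ∧ qf B y = 0 := by
  have hF : Fact (Irreducible (cub a b c)) := ⟨hirr⟩
  obtain ⟨θ, hθ⟩ : ∃ θ, θ = AdjoinRoot.root (cub a b c) := ⟨_, rfl⟩
  have hCZ : CharZero (AdjoinRoot (cub a b c)) :=
    charZero_of_injective_algebraMap (algebraMap k (AdjoinRoot (cub a b c))).injective
  have hfin : FiniteDimensional k (AdjoinRoot (cub a b c)) := (AdjoinRoot.powerBasis hirr.ne_zero).finite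
  have hrank : Module.finrank k (AdjoinRoot (cub a b c)) = 3 := by
    rw [(AdjoinRoot.powerBasis hirr.ne_zero).finrank, AdjoinRoot.powerBasis_dim, cub_natDegree]
  have hodd : Odd (Module.finrank k (AdjoinRoot (cub a b c))) := by
    rw [hrank]
    exact ⟨1, rfl⟩
  have hroot : aeval θ (cub a b c) = 0 := by
    rw [hθ, AdjoinRoot.aeval_eq, AdjoinRoot.mk_self]
  have hroot' := hroot
  rw [aeval_cub] at hroot'
  rw [← hθ] at heps
  obtain ⟨δ, hδ⟩ : ∃ δ, δ = (algebraMap k (AdjoinRoot (cub a b c)) a + θ) ^ 2 -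
      4 * (algebraMap k (AdjoinRoot (cub a b c)) b + algebraMap k (AdjoinRoot (cub a b c)) a * θ + θ ^ 2) := ⟨_, rfl⟩
  obtain ⟨e, he⟩ : ∃ e, e = 3 * θ ^ 2 + 2 * algebraMap k (AdjoinRoot (cub a b c)) a * θ +
      algebraMap k (AdjoinRoot (cub a b c)) b := ⟨_, rfl⟩
  have hdis : algebraMap k (AdjoinRoot (cub a b c)) (dis a b c) = δ * e ^ 2 := by
    have h1 := dis_root _ _ _ _ hroot'
    rw [hδ, he, ← h1, dis_map]
  -- homomorphisms of the cubic field
  have hom : ∀ (M : Type u) [Field M] [Algebra k M] (t : M), aeval t (cub a b c) = 0 →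
      ∃ j : AdjoinRoot (cub a b c) →ₐ[k] M, j θ = t := by
    intro M _ _ t ht
    refine ⟨AdjoinRoot.liftAlgHom (cub a b c) (Algebra.ofId k M) t ?_, ?_⟩
    · rw [← ht]
      rfl
    · rw [hθ]
      exact AdjoinRoot.liftAlgHom_root _ _ _ _
  have h2K : (2 : AdjoinRoot (cub a b c)) ≠ 0 := two_ne_zero
  by_cases hsq : IsSquare δ
  · -- the cyclic case
    obtain ⟨r, hr⟩ := hsq
    have hr' : r ^ 2 = δ := by rw [hr, sq]
    obtain ⟨t, ht⟩ : ∃ t, 2 * t = -(algebraMap k (AdjoinRoot (cub a b c)) a + θ) + r :=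
      ⟨(-(algebraMap k (AdjoinRoot (cub a b c)) a + θ) + r) / 2, by field_simp⟩
    obtain ⟨t', ht'⟩ : ∃ t', 2 * t' = -(algebraMap k (AdjoinRoot (cub a b c)) a + θ) + -r :=
      ⟨(-(algebraMap k (AdjoinRoot (cub a b c)) a + θ) + -r) / 2, by field_simp⟩
    have h1 : aeval t (cub a b c) = 0 := by
      rw [aeval_cub]
      exact root_of_sqrt h2K _ _ _ θ r t hroot' (by rw [hr', hδ]) ht
    have h1' : aeval t' (cub a b c) = 0 := by
      rw [aeval_cub]
      exact root_of_sqrt h2K _ _ _ θ (-r) t' hroot' (by rw [neg_sq, hr', hδ]) ht'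
    have htt : t ≠ t' := by
      rintro rfl
      have h3 : 2 * r = 0 := by linear_combination ht' - ht
      have h4 := (mul_eq_zero.mp h3).resolve_left h2K
      apply deriv_root_ne a b c hirr t h1
      have h5 : algebraMap k (AdjoinRoot (cub a b c)) a + θ = -(2 * t) := by linear_combination ht + h4
      have h6 : 4 * (algebraMap k (AdjoinRoot (cub a b c)) b + algebraMap k (AdjoinRoot (cub a b c)) a * θ + θ ^ 2) =
          4 * t ^ 2 := by
        rw [h4, zero_pow two_ne_zero, hδ, h5] at hr'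
        linear_combination hr'
      have h7 : (4 : AdjoinRoot (cub a b c)) ≠ 0 := by
        have : (4 : AdjoinRoot (cub a b c)) = 2 * 2 := by norm_num
        rw [this]
        exact mul_ne_zero h2K h2K
      have h8 := mul_left_cancel₀ h7 h6
      have h9 : algebraMap k (AdjoinRoot (cub a b c)) a = -(2 * t) - θ := by linear_combination h5
      rw [h9] at h8 ⊢
      linear_combination h8
    obtain ⟨j, hj⟩ := hom _ t h1
    obtain ⟨j', hj'⟩ := hom _ t' h1'
    have hD : algebraMap k (AdjoinRoot (cub a b c)) (dis a b c) = (r * e) ^ 2 := by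
      rw [hdis, ← hr']
      ring
    obtain ⟨hdet, ⟨i, hi⟩, hker⟩ := root_data A B hA hB _ hirr hdvd hns t h1
    obtain ⟨hdet', ⟨i', hi'⟩, hker'⟩ := root_data A B hA hB _ hirr hdvd hns t' h1'
    obtain ⟨s, hs⟩ := minors_square A B j θ (dis a b c) (r * e) hD heps i
    obtain ⟨s', hs'⟩ := minors_square A B j' θ (dis a b c) (r * e) hD heps i'
    rw [hj] at hs
    rw [hj'] at hs'
    have hs0 : s ≠ 0 := by
      rintro rfl
      exact hi (by rw [hs]; ring)
    have hs0' : s' ≠ 0 := by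
      rintro rfl
      exact hi' (by rw [hs']; ring)
    obtain ⟨x, hx, hq⟩ := HM _ t i s hs0 hdet hker hs
    obtain ⟨x', hx', hq'⟩ := HM _ t' i' s' hs0' hdet' hker' hs'
    exact d0_split hodd A B hA hB t t' htt hdet hdet' i i' s s' hs0 hs0' hs hs' x x' hx hx' hq hq'
  · -- the main case
    obtain ⟨hF2, r, σ, hr, hσr, hσσ, hfix, hr0, hfin2⟩ := exists_conj h2K δ hsq
    have hfin3 : FiniteDimensional k (AdjoinRoot (X ^ 2 - C δ : (AdjoinRoot (cub a b c))[X])) :=
      Module.Finite.trans (AdjoinRoot (cub a b c)) _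
    have h2M : (2 : AdjoinRoot (X ^ 2 - C δ : (AdjoinRoot (cub a b c))[X])) ≠ 0 := by
      have h8 := (map_ne_zero (algebraMap (AdjoinRoot (cub a b c)) (AdjoinRoot (X ^ 2 - C δ : (AdjoinRoot (cub a b c))[X])))).mpr h2K
      rwa [map_ofNat] at h8
    obtain ⟨ι, hι⟩ : ∃ ι, ι = algebraMap (AdjoinRoot (cub a b c)) (AdjoinRoot (X ^ 2 - C δ : (AdjoinRoot (cub a b c))[X])) :=
      ⟨_, rfl⟩
    obtain ⟨t, ht⟩ : ∃ t, 2 * t = -(ι (algebraMap k (AdjoinRoot (cub a b c)) a) + ι θ) + r :=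
      ⟨(-(ι (algebraMap k (AdjoinRoot (cub a b c)) a) + ι θ) + r) / 2, by field_simp⟩
    have hιk : ∀ x : k, ι (algebraMap k (AdjoinRoot (cub a b c)) x) = algebraMap k _ x := by
      intro x
      rw [hι]
      exact (IsScalarTower.algebraMap_apply k (AdjoinRoot (cub a b c)) _ x).symm
    have hθM : (ι θ) ^ 3 + ι (algebraMap k (AdjoinRoot (cub a b c)) a) * (ι θ) ^ 2 +
        ι (algebraMap k (AdjoinRoot (cub a b c)) b) * (ι θ) + ι (algebraMap k (AdjoinRoot (cub a b c)) c) = 0 := by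
      rw [← map_pow, ← map_pow, ← map_mul, ← map_mul, ← map_add, ← map_add, ← map_add, hroot', map_zero]
    have hrM : r ^ 2 = (ι (algebraMap k (AdjoinRoot (cub a b c)) a) + ι θ) ^ 2 -
        4 * (ι (algebraMap k (AdjoinRoot (cub a b c)) b) + ι (algebraMap k (AdjoinRoot (cub a b c)) a) * ι θ + (ι θ) ^ 2) := by
      have h3 := congrArg ι hδ
      simp only [map_sub, map_pow, map_add, map_mul, map_ofNat] at h3
      rw [hr, ← hι, h3]
    have h1 : aeval t (cub a b c) = 0 := by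
      rw [aeval_cub, ← hιk, ← hιk, ← hιk]
      exact root_of_sqrt h2M _ _ _ (ι θ) r t hθM hrM ht
    obtain ⟨j, hj⟩ := hom _ t h1
    have hD : algebraMap k (AdjoinRoot (X ^ 2 - C δ : (AdjoinRoot (cub a b c))[X])) (dis a b c) = (r * ι e) ^ 2 := by
      rw [← hιk, hdis, map_mul, map_pow, mul_pow, hr, ← hι]
    obtain ⟨hdet, ⟨i, hi⟩, hker⟩ := root_data A B hA hB _ hirr hdvd hns t h1
    obtain ⟨s, hs⟩ := minors_square A B j θ (dis a b c) (r * ι e) hD heps i
    rw [hj] at hs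
    have hs0 : s ≠ 0 := by
      rintro rfl
      exact hi (by rw [hs]; ring)
    obtain ⟨x, hx, hq⟩ := HM _ t i s hs0 hdet hker hs
    have hσt : σ t ≠ t := by
      intro h
      have h3 := congrArg σ ht
      rw [map_mul, map_ofNat, h, ht, map_add, map_neg, map_add, hσr] at h3
      have h4 : ∀ y, σ (ι y) = ι y := by
        intro y
        rw [hι]
        exact σ.commutes y
      rw [h4, h4] at h3
      have h5 : 2 * r = 0 := by linear_combination h3
      exact hr0 ((mul_eq_zero.mp h5).resolve_left h2M)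
    have hsep : Algebra.IsSeparable k (AdjoinRoot (cub a b c)) := inferInstance
    refine d0 hodd h2M σ hσσ hfix A B hA hB t hσt ?_ i s hs0 ?_ x hx ?_
    · rw [pen_tower]
      exact hdet
    · rw [pen_tower]
      exact hs
    · rw [pen_tower]
      exact hq

end Pool.Agent.H58.S13
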