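import Pool.Agent.H58.S13.Five

/-!
# S13: the algebraic theorem (D0)
-/

set_option autoImplicit false

namespace Pool.Agent.H58.S13

open Matrix Polynomial

theorem qf_add_mat {R : Type*} [CommRing R] {n : Type*} [Fintype n] (A B : Matrix n n R) (t : R) (x : n → R) :
    qf (A + t • B) x = qf A x + t * qf B x := by
  rw [qf_eq, qf_eq, qf_eq, Finset.mul_sum, ← Finset.sum_add_distrib]
  refine Finset.sum_congr rfl fun i _ => ?_
  rw [Finset.mul_sum, ← Finset.sum_add_distrib]
  refine Finset.sum_congr rfl fun j _ => ?_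
  rw [Matrix.add_apply, Matrix.smul_apply, smul_eq_mul]
  ring

theorem symm_pencil {K M : Type*} [Field K] [Field M] [Algebra K M] (A B : Matrix (Fin 5) (Fin 5) K) (hA : Aᵀ = A)
    (hB : Bᵀ = B) (t : M) : (A.map (algebraMap K M) + t • B.map (algebraMap K M))ᵀ =
      A.map (algebraMap K M) + t • B.map (algebraMap K M) := by
  rw [Matrix.transpose_add, Matrix.transpose_smul, ← Matrix.transpose_map, ← Matrix.transpose_map, hA, hB]

/-- an isotropic vector of the minor gives one off the vertex -/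
theorem off_vertex {M : Type*} [Field M] (S : Matrix (Fin 5) (Fin 5) M) (i : Fin 5)
    (hmin : (S.submatrix i.succAbove i.succAbove).det ≠ 0) (x : Fin 4 → M) (hx : x ≠ 0)
    (hq : qf (S.submatrix i.succAbove i.succAbove) x = 0) :
    S *ᵥ (i.insertNth (0 : M) x) ≠ 0 ∧ qf S (i.insertNth (0 : M) x) = 0 := by
  refine ⟨fun h => ?_, by rw [qf_insert, hq]⟩
  have h1 : (S.submatrix i.succAbove i.succAbove) *ᵥ x = 0 := by
    funext a
    have h2 := congrFun h (i.succAbove a)
    rw [Matrix.mulVec, dotProduct, Fin.sum_univ_succAbove _ i, Fin.insertNth_apply_same, mul_zero, zero_add] at h2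
    rw [Matrix.mulVec, dotProduct]
    simpa using h2
  exact hx (Matrix.eq_zero_of_mulVec_eq_zero hmin h1)

theorem d0_quad {K M : Type*} [Field K] [Field M] [Algebra K M] (h2 : (2 : M) ≠ 0) (σ : M ≃ₐ[K] M)
    (hσ : ∀ z, σ (σ z) = z) (hfix : ∀ z, σ z = z → ∃ y : K, algebraMap K M y = z) (A B : Matrix (Fin 5) (Fin 5) K)
    (hA : Aᵀ = A) (hB : Bᵀ = B) (t : M) (ht : σ t ≠ t)
    (hdet : (A.map (algebraMap K M) + t • B.map (algebraMap K M)).det = 0) (i : Fin 5) (s : M) (hs : s ≠ 0)
    (hmin : ((A.map (algebraMap K M) + t • B.map (algebraMap K M)).submatrix i.succAbove i.succAbove).det = s ^ 2)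
    (x : Fin 4 → M) (hx : x ≠ 0)
    (hq : qf ((A.map (algebraMap K M) + t • B.map (algebraMap K M)).submatrix i.succAbove i.succAbove) x = 0) :
    ∃ y : Fin 5 → K, y ≠ 0 ∧ qf A y = 0 ∧ qf B y = 0 := by
  have hmin0 : ((A.map (algebraMap K M) + t • B.map (algebraMap K M)).submatrix i.succAbove i.succAbove).det ≠ 0 := by
    rw [hmin]
    exact pow_ne_zero 2 hs
  obtain ⟨h1, h3⟩ := off_vertex _ i hmin0 x hx hq
  obtain ⟨w, hw, hw2⟩ := iso_three _ (symm_pencil A B hA hB t) hdet i s hs hmin _ h1 h3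
  refine quad_step h2 σ hσ hfix A B t ht w hw fun a => ?_
  rw [← qf_add_mat]
  exact hw2 a

/-- **(D0)**: odd degree step after the quadratic step -/
theorem d0 {k K M : Type*} [Field k] [Field K] [Field M] [Algebra k K] [Algebra K M] [FiniteDimensional k K]
    [Algebra.IsSeparable k K] (hodd : Odd (Module.finrank k K)) (h2 : (2 : M) ≠ 0) (σ : M ≃ₐ[K] M)
    (hσ : ∀ z, σ (σ z) = z) (hfix : ∀ z, σ z = z → ∃ y : K, algebraMap K M y = z) (A B : Matrix (Fin 5) (Fin 5) k)
    (hA : Aᵀ = A) (hB : Bᵀ = B) (t : M) (ht : σ t ≠ t)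
    (hdet : ((A.map (algebraMap k K)).map (algebraMap K M) + t • (B.map (algebraMap k K)).map (algebraMap K M)).det = 0)
    (i : Fin 5) (s : M) (hs : s ≠ 0)
    (hmin : (((A.map (algebraMap k K)).map (algebraMap K M) +
      t • (B.map (algebraMap k K)).map (algebraMap K M)).submatrix i.succAbove i.succAbove).det = s ^ 2)
    (x : Fin 4 → M) (hx : x ≠ 0)
    (hq : qf (((A.map (algebraMap k K)).map (algebraMap K M) +
      t • (B.map (algebraMap k K)).map (algebraMap K M)).submatrix i.succAbove i.succAbove) x = 0) :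
    ∃ y : Fin 5 → k, y ≠ 0 ∧ qf A y = 0 ∧ qf B y = 0 := by
  have hA' : (A.map (algebraMap k K))ᵀ = A.map (algebraMap k K) := by rw [← Matrix.transpose_map, hA]
  have hB' : (B.map (algebraMap k K))ᵀ = B.map (algebraMap k K) := by rw [← Matrix.transpose_map, hB]
  obtain ⟨y, hy, h3, h4⟩ := d0_quad h2 σ hσ hfix _ _ hA' hB' t ht hdet i s hs hmin x hx hq
  exact odd_descent hodd A B y hy h3 h4

/-- two totally isotropic three-spaces of different members of the pencil -/
theorem split_step {K : Type*} [Field K] (A B : Matrix (Fin 5) (Fin 5) K) (t t' : K) (ht : t ≠ t')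
    (w w' : Fin 3 → Fin 5 → K) (hw : LinearIndependent K w) (hw' : LinearIndependent K w')
    (hq : ∀ a : Fin 3 → K, qf A (∑ j, a j • w j) + t * qf B (∑ j, a j • w j) = 0)
    (hq' : ∀ a : Fin 3 → K, qf A (∑ j, a j • w' j) + t' * qf B (∑ j, a j • w' j) = 0) :
    ∃ y : Fin 5 → K, y ≠ 0 ∧ qf A y = 0 ∧ qf B y = 0 := by
  obtain ⟨Φ, hΦ⟩ : ∃ Φ : ((Fin 3 → K) × (Fin 3 → K)) →ₗ[K] (Fin 5 → K),
      ∀ p, Φ p = ∑ j, p.1 j • w j - ∑ j, p.2 j • w' j := by
    refine ⟨{ toFun := fun p => ∑ j, p.1 j • w j - ∑ j, p.2 j • w' j, map_add' := ?_, map_smul' := ?_ }, fun p => rfl⟩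
    · intro p q
      simp only [Prod.fst_add, Prod.snd_add, Pi.add_apply, add_smul, Finset.sum_add_distrib]
      abel
    · intro c p
      simp only [Prod.smul_fst, Prod.smul_snd, Pi.smul_apply, smul_eq_mul, mul_smul, RingHom.id_apply, smul_sub,
        Finset.smul_sum]
  have hker : ∃ p : (Fin 3 → K) × (Fin 3 → K), p ≠ 0 ∧ Φ p = 0 := by
    by_contra hc
    push Not at hc
    have hinj : Function.Injective Φ := by
      rw [injective_iff_map_eq_zero]
      intro p hp
      by_contra hne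
      exact hc p hne hp
    have := LinearMap.finrank_le_finrank_of_injective hinj
    rw [Module.finrank_prod, Module.finrank_fin_fun, Module.finrank_fin_fun] at this
    omega
  obtain ⟨p, hp, hp0⟩ := hker
  rw [hΦ, sub_eq_zero] at hp0
  refine ⟨∑ j, p.1 j • w j, fun h0 => ?_, ?_⟩
  · rw [h0] at hp0
    have h1 := Fintype.linearIndependent_iff.mp hw p.1 h0
    have h2 := Fintype.linearIndependent_iff.mp hw' p.2 hp0.symm
    exact hp (Prod.ext (funext h1) (funext h2))
  · have h1 := hq p.1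
    have h2 := hq' p.2
    rw [← hp0] at h2
    have h3 : (t - t') * qf B (∑ j, p.1 j • w j) = 0 := by linear_combination h1 - h2
    have h4 : qf B (∑ j, p.1 j • w j) = 0 := by
      rcases mul_eq_zero.mp h3 with h | h
      · exact absurd (sub_eq_zero.mp h) ht
      · exact h
    rw [h4, mul_zero, add_zero] at h1
    exact ⟨h1, h4⟩

/-- (D0) when two degenerate members are defined over the odd degree field -/
theorem d0_split {k K : Type*} [Field k] [Field K] [Algebra k K] [FiniteDimensional k K]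
    [Algebra.IsSeparable k K] (hodd : Odd (Module.finrank k K)) (A B : Matrix (Fin 5) (Fin 5) k)
    (hA : Aᵀ = A) (hB : Bᵀ = B) (t t' : K) (ht : t ≠ t')
    (hdet : (A.map (algebraMap k K) + t • B.map (algebraMap k K)).det = 0)
    (hdet' : (A.map (algebraMap k K) + t' • B.map (algebraMap k K)).det = 0)
    (i i' : Fin 5) (s s' : K) (hs : s ≠ 0) (hs' : s' ≠ 0)
    (hmin : ((A.map (algebraMap k K) + t • B.map (algebraMap k K)).submatrix i.succAbove i.succAbove).det = s ^ 2)
    (hmin' : ((A.map (algebraMap k K) + t' • B.map (algebraMap k K)).submatrix i'.succAbove i'.succAbove).det = s' ^ 2)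
    (x x' : Fin 4 → K) (hx : x ≠ 0) (hx' : x' ≠ 0)
    (hq : qf ((A.map (algebraMap k K) + t • B.map (algebraMap k K)).submatrix i.succAbove i.succAbove) x = 0)
    (hq' : qf ((A.map (algebraMap k K) + t' • B.map (algebraMap k K)).submatrix i'.succAbove i'.succAbove) x' = 0) :
    ∃ y : Fin 5 → k, y ≠ 0 ∧ qf A y = 0 ∧ qf B y = 0 := by
  have hm : ((A.map (algebraMap k K) + t • B.map (algebraMap k K)).submatrix i.succAbove i.succAbove).det ≠ 0 := by
    rw [hmin]
    exact pow_ne_zero 2 hs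
  have hm' : ((A.map (algebraMap k K) + t' • B.map (algebraMap k K)).submatrix i'.succAbove i'.succAbove).det ≠ 0 := by
    rw [hmin']
    exact pow_ne_zero 2 hs'
  obtain ⟨h1, h3⟩ := off_vertex _ i hm x hx hq
  obtain ⟨h1', h3'⟩ := off_vertex _ i' hm' x' hx' hq'
  obtain ⟨w, hw, hw2⟩ := iso_three _ (symm_pencil A B hA hB t) hdet i s hs hmin _ h1 h3
  obtain ⟨w', hw', hw2'⟩ := iso_three _ (symm_pencil A B hA hB t') hdet' i' s' hs' hmin' _ h1' h3'
  obtain ⟨y, hy, h5, h6⟩ := split_step (A.map (algebraMap k K)) (B.map (algebraMap k K)) t t' ht w w' hw hw'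
    (fun a => by rw [← qf_add_mat]; exact hw2 a) (fun a => by rw [← qf_add_mat]; exact hw2' a)
  exact odd_descent hodd A B y hy h5 h6

end Pool.Agent.H58.S13
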