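import Pool.Agent.H58.S13.Simple

/-!
# S13: the fields of class (D)
-/

set_option autoImplicit false

namespace Pool.Agent.H58.S13

open Matrix Polynomial

/-- the monic cubic polynomial with coefficients `a, b, c` -/
noncomputable def cub {k : Type*} [CommRing k] (a b c : k) : k[X] := X ^ 3 + C a * X ^ 2 + C b * X + C c

/-- its discriminant -/
def dis {k : Type*} [CommRing k] (a b c : k) : k :=
  a ^ 2 * b ^ 2 - 4 * b ^ 3 - 4 * a ^ 3 * c - 27 * c ^ 2 + 18 * a * b * c

/-- the member `A + t B` of the pencil over an extension -/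
def pen {k M : Type*} [CommRing k] [CommRing M] [Algebra k M] {n : Type*} (A B : Matrix n n k) (t : M) : Matrix n n M :=
  A.map (algebraMap k M) + t • B.map (algebraMap k M)

theorem cub_monic {k : Type*} [Field k] (a b c : k) : (cub a b c).Monic := by
  unfold cub
  monicity!

theorem cub_natDegree {k : Type*} [Field k] (a b c : k) : (cub a b c).natDegree = 3 := by
  unfold cub
  compute_degree!

/-- transport of the pencil along a homomorphism of fields over `k` -/
theorem pen_map {k K M : Type*} [CommRing k] [CommRing K] [CommRing M] [Algebra k K] [Algebra k M] (j : K →ₐ[k] M)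
    {n : Type*} (A B : Matrix n n k) (t : K) : (pen A B t).map j = pen A B (j t) := by
  unfold pen
  ext u v
  simp

/-- from the polynomial condition at a root to the simple root condition over `M` -/
theorem root_data {k M : Type*} [Field k] [CharZero k] [Field M] [Algebra k M] (A B : Matrix (Fin 5) (Fin 5) k)
    (hA : Aᵀ = A) (hB : Bᵀ = B) (p : k[X]) (hirr : Irreducible p) (hdvd : p ∣ (A.map C + (X : k[X]) • B.map C).det)
    (hns : ¬ p ^ 2 ∣ (A.map C + (X : k[X]) • B.map C).det) (t : M) (ht : aeval t p = 0) :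
    (pen A B t).det = 0 ∧ (∃ i : Fin 5, ((pen A B t).submatrix i.succAbove i.succAbove).det ≠ 0) ∧
      ∀ z, (pen A B t) *ᵥ z = 0 → z ≠ 0 → qf (B.map (algebraMap k M)) z ≠ 0 := by
  obtain ⟨P, hP⟩ : ∃ P, P = (A.map C + (X : k[X]) • B.map C).det := ⟨_, rfl⟩
  rw [← hP] at hdvd hns
  obtain ⟨Q, hQ⟩ := hdvd
  have hmap : P.map (algebraMap k M) =
      ((A.map (algebraMap k M)).map C + (X : M[X]) • (B.map (algebraMap k M)).map C).det := by
    rw [hP]
    have h1 := RingHom.map_det (mapRingHom (algebraMap k M)) (A.map C + (X : k[X]) • B.map C)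
    rw [RingHom.mapMatrix_apply] at h1
    rw [← coe_mapRingHom, h1]
    congr 1
    ext1 u v
    simp
  have hdet : (pen A B t).det = 0 := by
    have h1 := eval_pencil (A.map (algebraMap k M)) (B.map (algebraMap k M)) t
    rw [← hmap, eval_map_algebraMap, hQ, map_mul, ht, zero_mul] at h1
    exact h1.symm
  have hp' : aeval t (derivative p) ≠ 0 := by
    have hsep : p.Separable := hirr.separable
    obtain ⟨u, v, huv⟩ := hsep
    intro h
    have h1 := congrArg (aeval t) huv
    rw [map_add, map_mul, map_mul, ht, h, mul_zero, mul_zero, add_zero, map_one] at h1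
    exact zero_ne_one h1
  have hQ0 : aeval t Q ≠ 0 := by
    intro h
    have h1 : ¬ IsCoprime p Q := by
      rintro ⟨u, v, huv⟩
      have h1 := congrArg (aeval t) huv
      rw [map_add, map_mul, map_mul, ht, h, mul_zero, mul_zero, add_zero, map_one] at h1
      exact zero_ne_one h1
    have h2 : p ∣ Q := by
      by_contra hc
      exact h1 ((Irreducible.coprime_iff_not_dvd hirr).mpr hc)
    obtain ⟨R, hR⟩ := h2
    exact hns ⟨R, by rw [hQ, hR]; ring⟩
  have hder : (derivative ((A.map (algebraMap k M)).map C + (X : M[X]) • (B.map (algebraMap k M)).map C).det).eval t ≠ 0 := by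
    rw [← hmap, derivative_map, eval_map_algebraMap, hQ, derivative_mul, map_add, map_mul, map_mul, ht, zero_mul, add_zero]
    exact mul_ne_zero hp' hQ0
  obtain ⟨h3, h4⟩ := simple_root (A.map (algebraMap k M)) (B.map (algebraMap k M)) (by rw [← Matrix.transpose_map, hA])
    (by rw [← Matrix.transpose_map, hB]) t hdet hder
  exact ⟨hdet, h3, h4⟩

/-- the discriminant in terms of a root -/
theorem dis_root {K : Type*} [Field K] (a b c θ : K) (hθ : θ ^ 3 + a * θ ^ 2 + b * θ + c = 0) :
    dis a b c = ((a + θ) ^ 2 - 4 * (b + a * θ + θ ^ 2)) * (3 * θ ^ 2 + 2 * a * θ + b) ^ 2 := by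
  unfold dis
  have hc : c = -(θ ^ 3 + a * θ ^ 2 + b * θ) := by linear_combination hθ
  rw [hc]
  ring

theorem aeval_cub {k K : Type*} [Field k] [Field K] [Algebra k K] (a b c : k) (θ : K) :
    aeval θ (cub a b c) = θ ^ 3 + algebraMap k K a * θ ^ 2 + algebraMap k K b * θ + algebraMap k K c := by
  unfold cub
  simp

/-- the second root -/
theorem root_of_sqrt {M : Type*} [Field M] (h2 : (2 : M) ≠ 0) (a b c θ r t : M)
    (hθ : θ ^ 3 + a * θ ^ 2 + b * θ + c = 0) (hr : r ^ 2 = (a + θ) ^ 2 - 4 * (b + a * θ + θ ^ 2))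
    (ht : 2 * t = -(a + θ) + r) : t ^ 3 + a * t ^ 2 + b * t + c = 0 := by
  have h4 : (4 : M) ≠ 0 := by
    have : (4 : M) = 2 * 2 := by norm_num
    rw [this]
    exact mul_ne_zero h2 h2
  have hr2 : r = 2 * t + (a + θ) := by linear_combination -ht
  rw [hr2] at hr
  have h1 : 4 * (t ^ 2 + (a + θ) * t + (b + a * θ + θ ^ 2)) = 0 := by linear_combination hr
  have h3 := (mul_eq_zero.mp h1).resolve_left h4
  linear_combination (t - θ) * h3 + hθ

/-- all minors at another root are squares -/
theorem minors_square {k K M : Type*} [Field k] [Field K] [Field M] [Algebra k K] [Algebra k M]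
    (A B : Matrix (Fin 5) (Fin 5) k) (j : K →ₐ[k] M) (θ : K) (d : k) (D : M) (hD : algebraMap k M d = D ^ 2)
    (heps : ∀ i : Fin 5, ∃ u : K, ((pen A B θ).submatrix i.succAbove i.succAbove).det = algebraMap k K d * u ^ 2)
    (i : Fin 5) : ∃ s : M, ((pen A B (j θ)).submatrix i.succAbove i.succAbove).det = s ^ 2 := by
  obtain ⟨u, hu⟩ := heps i
  refine ⟨D * j u, ?_⟩
  have h1 := AlgHom.map_det j ((pen A B θ).submatrix i.succAbove i.succAbove)
  rw [AlgHom.mapMatrix_apply, ← Matrix.submatrix_map, pen_map, hu, map_mul, AlgHom.commutes, hD, map_pow] at h1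
  rw [← h1]
  ring

end Pool.Agent.H58.S13
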