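import Pool.Agent.H58.S13.ApN
import Pool.Agent.H89.HM.Cn

/-!
# S13: Hasse-Minkowski for ternary forms over number fields, from approximate zeros
-/

set_option autoImplicit false

open scoped NumberField
open IsDedekindDomain

noncomputable section

namespace Pool.Agent.H58.S13

open H63.MA

variable {K : Type} [Field K] [NumberField K]

/-- **Hasse-Minkowski** for ternary forms over number fields, from approximate zeros -/
theorem hm3 (b c : Kˣ) (hv : ∀ v : Pl K, App3 v (b : K) (c : K))
    (hr : ∀ φ : K →+* ℝ, 0 < φ (b : K) ∨ 0 < φ (c : K)) :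
    ∃ x y z : K, ¬ (x = 0 ∧ y = 0 ∧ z = 0) ∧ x ^ 2 = b * y ^ 2 + c * z ^ 2 := by
  obtain ⟨S, T, h⟩ := Pool.Agent.H89.HM.conic b c (fun v η hη => by
    obtain ⟨S, T, hST⟩ := ap_norm v b c (hv v) η hη
    refine ⟨S / b, T / b, ?_⟩
    have hb := b.ne_zero
    have e1 : (b : K) * ((S / b) ^ 2 - c * (T / b) ^ 2) - 1 = (S ^ 2 - c * T ^ 2) / b - 1 := by
      field_simp
    rw [e1]
    exact hST) hr
  exact ⟨S, 1, T, fun h0 => one_ne_zero h0.2.1, by linear_combination h⟩

end Pool.Agent.H58.S13
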