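import Pool.Agent.H58.S13.Ap4

/-!
# S13: the Hasse principle for class (D) over number fields
-/

set_option autoImplicit false

open scoped NumberField
open IsDedekindDomain

noncomputable section

namespace Pool.Agent.H58.S13

open Matrix Polynomial H63.MA Pool.Agent.H48.S13

/-- **the Hasse principle for class (D)** -/
theorem main {k : Type} [Field k] [NumberField k] (A B : Matrix (Fin 5) (Fin 5) k) (hA : Aᵀ = A) (hB : Bᵀ = B)
    (a b c : k) (hirr : Irreducible (cub a b c)) (hdvd : cub a b c ∣ (A.map C + (X : k[X]) • B.map C).det)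
    (hns : ¬ cub a b c ^ 2 ∣ (A.map C + (X : k[X]) • B.map C).det)
    (heps : ∀ i : Fin 5, ∃ u : AdjoinRoot (cub a b c),
      ((pen A B (AdjoinRoot.root (cub a b c))).submatrix i.succAbove i.succAbove).det =
        algebraMap k (AdjoinRoot (cub a b c)) (dis a b c) * u ^ 2)
    (hloc : ∀ v : HeightOneSpectrum (𝓞 k), ∃ x : Fin 5 → v.adicCompletion k, x ≠ 0 ∧
      qf (A.map (algebraMap k (v.adicCompletion k))) x = 0 ∧ qf (B.map (algebraMap k (v.adicCompletion k))) x = 0)
    (hreal : ∀ τ : k →+* ℝ, ∃ x : Fin 5 → ℝ, x ≠ 0 ∧ qf (A.map τ) x = 0 ∧ qf (B.map τ) x = 0) :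
    ∃ y : Fin 5 → k, y ≠ 0 ∧ qf A y = 0 ∧ qf B y = 0 := by
  refine class_D A B hA hB a b c hirr hdvd hns heps ?_
  intro M _ _ _ t i s hs hdet hker hmin
  have hNF : NumberField M := NumberField.of_module_finite k M
  have hmin0 : ((pen A B t).submatrix i.succAbove i.succAbove).det ≠ 0 := by
    rw [hmin]
    exact pow_ne_zero 2 hs
  have hsym : ((pen A B t).submatrix i.succAbove i.succAbove)ᵀ = (pen A B t).submatrix i.succAbove i.succAbove := by
    rw [Matrix.transpose_submatrix]
    congr 1
    exact symm_pencil A B hA hB t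
  exact hm4 _ hsym s hs hmin (fun w => local_app A B hA hB hloc t i hdet hker hmin0 w)
    (fun σ => local_real A B hA hB hreal t i hdet hker hmin0 σ)

end Pool.Agent.H58.S13
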