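import Pool.Agent.H58.S13.Amer

/-!
# S13: descent in odd degree for pairs of quadratic forms

A common nontrivial zero of two quadratic forms over an extension of odd degree gives one over the ground field (Springer, Amer, Brumer).
-/

set_option autoImplicit false

namespace Pool.Agent.H58.S13

open Matrix Polynomial

variable {n : Type*} [Fintype n]

theorem pair_of_ratfunc {k : Type*} [Field k] (A B : Matrix n n k) (F : Type*) [Field F] [Algebra k[X] F]
    [IsFractionRing k[X] F] (x : n → F) (hx : x ≠ 0)
    (hq : qf (A.map ((algebraMap k[X] F).comp C)) x + algebraMap k[X] F X * qf (B.map ((algebraMap k[X] F).comp C)) x = 0) :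
    ∃ y : n → k, y ≠ 0 ∧ qf A y = 0 ∧ qf B y = 0 := by
  classical
  obtain ⟨b, hb⟩ := IsLocalization.exist_integer_multiples_of_finite (nonZeroDivisors k[X]) x
  choose y hy using hb
  have hb0 : algebraMap k[X] F (b : k[X]) ≠ 0 := by
    rw [Ne, IsFractionRing.to_map_eq_zero_iff]
    exact nonZeroDivisors.ne_zero b.2
  have hy' : ∀ i, algebraMap k[X] F (y i) = algebraMap k[X] F b * x i := fun i => by
    rw [hy i, Algebra.smul_def]
  have hy0 : y ≠ 0 := by
    rintro rfl
    apply hx
    funext i
    have := hy' i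
    simp only [Pi.zero_apply, map_zero] at this ⊢
    rcases mul_eq_zero.1 this.symm with h | h
    · exact absurd h hb0
    · exact h
  have hQ : QT A B y = 0 := by
    apply IsFractionRing.injective k[X] F
    rw [map_zero]
    unfold QT
    rw [map_add, map_mul, ← qf_map, ← qf_map]
    have e1 : (A.map C).map (algebraMap k[X] F) = A.map ((algebraMap k[X] F).comp C) := by
      ext i j
      rfl
    have e2 : (B.map C).map (algebraMap k[X] F) = B.map ((algebraMap k[X] F).comp C) := by
      ext i j
      rfl
    rw [e1, e2]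
    have e3 : (fun i => algebraMap k[X] F (y i)) = fun i => algebraMap k[X] F b * x i := funext hy'
    rw [e3, qf_smul, qf_smul]
    linear_combination (algebraMap k[X] F b) ^ 2 * hq
  exact amer A B ((Finset.univ : Finset n).sup fun i => (y i).natDegree) y hy0
    (fun i => Finset.le_sup (f := fun i => (y i).natDegree) (Finset.mem_univ i)) hQ

/-- descent in odd degree -/
theorem odd_descent {k K : Type*} [Field k] [Field K] [Algebra k K] [FiniteDimensional k K]
    [Algebra.IsSeparable k K] (hodd : Odd (Module.finrank k K)) (A B : Matrix n n k) (x : n → K) (hx : x ≠ 0)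
    (hA : qf (A.map (algebraMap k K)) x = 0) (hB : qf (B.map (algebraMap k K)) x = 0) :
    ∃ y : n → k, y ≠ 0 ∧ qf A y = 0 ∧ qf B y = 0 := by
  obtain ⟨θ, hθ⟩ := Field.exists_primitive_element k K
  have hint : IsIntegral k θ := Algebra.IsIntegral.isIntegral θ
  have hadj : Algebra.adjoin k {θ} = ⊤ := by
    rw [← IntermediateField.adjoin_simple_toSubalgebra_of_isAlgebraic hint.isAlgebraic, hθ, IntermediateField.top_toSubalgebra]
  have hex : ∀ z : K, ∃ f : k[X], aeval θ f = z := by
    intro z
    have hz : z ∈ Algebra.adjoin k {θ} := by rw [hadj]; exact Algebra.mem_top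
    rw [Algebra.adjoin_singleton_eq_range_aeval] at hz
    exact hz
  choose v hv using fun i => hex (x i)
  obtain ⟨p, hp⟩ : ∃ p, p = minpoly k θ := ⟨_, rfl⟩
  have hirr : Irreducible p := by rw [hp]; exact minpoly.irreducible hint
  have hpd : p.natDegree = Module.finrank k K := by
    rw [hp, ← IntermediateField.adjoin.finrank hint, hθ, IntermediateField.finrank_top']
  have hdvd : ∀ M : Matrix n n k, qf (M.map (algebraMap k K)) x = 0 → p ∣ qf (M.map C) v := by
    intro M hM
    rw [hp]
    apply minpoly.dvd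
    have e := qf_map (aeval θ : k[X] →ₐ[k] K).toRingHom (M.map C) v
    have e1 : (M.map C).map (aeval θ : k[X] →ₐ[k] K).toRingHom = M.map (algebraMap k K) := by
      ext i j
      exact aeval_C θ (M i j)
    have e2 : (fun i => (aeval θ : k[X] →ₐ[k] K).toRingHom (v i)) = x := funext hv
    rw [e1, e2, hM] at e
    exact e.symm
  obtain ⟨i0, hi0⟩ : ∃ i, ¬ p ∣ v i := by
    by_contra hc
    push_neg at hc
    apply hx
    funext i
    obtain ⟨a, ha⟩ := hc i
    rw [← hv i, ha, map_mul, hp, minpoly.aeval, zero_mul]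
    rfl
  -- over the field of rational functions
  let F := FractionRing k[X]
  obtain ⟨ι, hι⟩ : ∃ ι : k →+* F, ι = (algebraMap k[X] F).comp C := ⟨_, rfl⟩
  obtain ⟨t, ht⟩ : ∃ t : F, t = algebraMap k[X] F X := ⟨_, rfl⟩
  obtain ⟨M, hM⟩ : ∃ M : Matrix n n F, M = A.map ι + t • B.map ι := ⟨_, rfl⟩
  have hqM : ∀ (z : n → F), qf M z = qf (A.map ι) z + t * qf (B.map ι) z := by
    intro z
    rw [qf_eq, qf_eq, qf_eq, Finset.mul_sum, ← Finset.sum_add_distrib]
    refine Finset.sum_congr rfl fun i _ => ?_
    rw [Finset.mul_sum, ← Finset.sum_add_distrib]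
    refine Finset.sum_congr rfl fun j _ => ?_
    rw [hM, Matrix.add_apply, Matrix.smul_apply, smul_eq_mul]
    ring
  have hqM' : ∀ (z : n → F[X]), qf (M.map C) z = qf ((A.map ι).map C) z + C t * qf ((B.map ι).map C) z := by
    intro z
    rw [qf_eq, qf_eq, qf_eq, Finset.mul_sum, ← Finset.sum_add_distrib]
    refine Finset.sum_congr rfl fun i _ => ?_
    rw [Finset.mul_sum, ← Finset.sum_add_distrib]
    refine Finset.sum_congr rfl fun j _ => ?_
    rw [hM, Matrix.map_apply, Matrix.add_apply, Matrix.smul_apply, smul_eq_mul, C_add, C_mul]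
    simp only [Matrix.map_apply]
    ring
  have hPo : Odd (p.map ι).natDegree := by
    rw [natDegree_map, hpd]
    exact hodd
  obtain ⟨p', hp', hp'P, hp'o⟩ := exists_odd_factor (p.map ι) hPo
  have hmap : ∀ N : Matrix n n k, qf (N.map (algebraMap k K)) x = 0 →
      p.map ι ∣ qf ((N.map ι).map C) (fun i => (v i).map ι) := by
    intro N hN
    have e := qf_map (mapRingHom ι) (N.map C) v
    have e1 : (N.map C).map (mapRingHom ι) = (N.map ι).map C := by
      ext i j : 2
      simp [Matrix.map_apply]
    rw [e1] at e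
    have e2 : (fun i => (v i).map ι) = fun i => mapRingHom ι (v i) := rfl
    rw [e2, e]
    exact Polynomial.map_dvd ι (hdvd N hN)
  obtain ⟨z, hz, hz0⟩ := springer M p' hp' hp'o (fun i => (v i).map ι) ⟨i0, fun h => by
    have hcop : IsCoprime p (v i0) := (hirr.coprime_iff_not_dvd).2 hi0
    have hcop' : IsCoprime (p.map ι) ((v i0).map ι) := hcop.map (mapRingHom ι)
    exact hp'.not_isUnit (hcop'.isUnit_of_dvd' hp'P h)⟩ (by
    rw [hqM']
    exact dvd_add (hp'P.trans (hmap A hA)) ((hp'P.trans (hmap B hB)).mul_left _))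
  refine pair_of_ratfunc A B F z hz ?_
  rw [hqM, hι, ht] at hz0
  exact hz0

end Pool.Agent.H58.S13
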