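import Pool.Agent.H58.S13.Odd

/-!
# S13: totally isotropic planes of a quaternary form with square discriminant
-/

set_option autoImplicit false

namespace Pool.Agent.H58.S13

open Matrix Polynomial

variable {n : Type*} [Fintype n]

/-- the symmetric bilinear form -/
def bf {R : Type*} [CommRing R] {n : Type*} [Fintype n] (S : Matrix n n R) (x y : n → R) : R := x ⬝ᵥ S *ᵥ y

theorem bf_self {R : Type*} [CommRing R] (S : Matrix n n R) (x : n → R) : bf S x x = qf S x := rfl

theorem bf_add_left {R : Type*} [CommRing R] (S : Matrix n n R) (x y z : n → R) :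
    bf S (x + y) z = bf S x z + bf S y z := by
  unfold bf
  rw [add_dotProduct]

theorem bf_smul_left {R : Type*} [CommRing R] (S : Matrix n n R) (c : R) (x z : n → R) :
    bf S (c • x) z = c * bf S x z := by
  unfold bf
  rw [smul_dotProduct, smul_eq_mul]

theorem bf_add_right {R : Type*} [CommRing R] (S : Matrix n n R) (x y z : n → R) :
    bf S x (y + z) = bf S x y + bf S x z := by
  unfold bf
  rw [mulVec_add, dotProduct_add]

theorem bf_smul_right {R : Type*} [CommRing R] (S : Matrix n n R) (c : R) (x z : n → R) :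
    bf S x (c • z) = c * bf S x z := by
  unfold bf
  rw [mulVec_smul, dotProduct_smul, smul_eq_mul]

theorem bf_symm {R : Type*} [CommRing R] {S : Matrix n n R} (hS : Sᵀ = S) (x y : n → R) : bf S x y = bf S y x := by
  unfold bf
  rw [dotProduct_mulVec, ← mulVec_transpose, hS, dotProduct_comm]

theorem bf_zero_right {R : Type*} [CommRing R] (S : Matrix n n R) (x : n → R) : bf S x 0 = 0 := by
  unfold bf
  rw [mulVec_zero, dotProduct_zero]

/-- two independent vectors orthogonal to two given ones in dimension four -/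
theorem exists_two {M : Type*} [Field M] (f : (Fin 4 → M) →ₗ[M] (Fin 2 → M)) :
    ∃ y1 y2 : Fin 4 → M, LinearIndependent M ![y1, y2] ∧ f y1 = 0 ∧ f y2 = 0 := by
  have h1 := f.finrank_range_add_finrank_ker
  rw [Module.finrank_fin_fun] at h1
  have h2 : Module.finrank M (LinearMap.range f) ≤ 2 := by
    have := Submodule.finrank_le (LinearMap.range f)
    rwa [Module.finrank_fin_fun] at this
  have h3 : 2 ≤ Module.finrank M (LinearMap.ker f) := by omega
  obtain ⟨b, hb⟩ := exists_linearIndependent_of_le_finrank h3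
  refine ⟨b 0, b 1, ?_, (b 0).2, (b 1).2⟩
  have h4 := hb.map' (LinearMap.ker f).subtype (Submodule.ker_subtype _)
  have h5 : ![(b 0 : Fin 4 → M), (b 1 : Fin 4 → M)] = (LinearMap.ker f).subtype ∘ b := by
    funext i
    fin_cases i <;> rfl
  rw [h5]
  exact h4

/-- the Gram determinant -/
theorem gram_det {M : Type*} [Field M] (S : Matrix (Fin 4) (Fin 4) M) (hS : Sᵀ = S) (x x2 y1 y2 : Fin 4 → M)
    (h11 : bf S x x = 0) (h12 : bf S x x2 = 1) (h13 : bf S x y1 = 0) (h14 : bf S x y2 = 0)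
    (h23 : bf S x2 y1 = 0) (h24 : bf S x2 y2 = 0) :
    (Matrix.of ![x, x2, y1, y2]).det ^ 2 * S.det = bf S y1 y2 ^ 2 - bf S y1 y1 * bf S y2 y2 := by
  obtain ⟨Q, hQ⟩ : ∃ Q : Matrix (Fin 4) (Fin 4) M, Q = Matrix.of ![x, x2, y1, y2] := ⟨_, rfl⟩
  have e : Q * S * Qᵀ = Matrix.of fun i j => bf S (Q i) (Q j) := by
    ext i j
    rw [Matrix.mul_assoc, Matrix.mul_apply, Matrix.of_apply]
    unfold bf
    rw [dotProduct]
    refine Finset.sum_congr rfl fun a _ => ?_
    congr 1
  have hd := congrArg Matrix.det e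
  rw [Matrix.det_mul, Matrix.det_mul, Matrix.det_transpose] at hd
  rw [← hQ]
  have h21 := bf_symm hS x2 x
  have h31 := bf_symm hS y1 x
  have h41 := bf_symm hS y2 x
  have h32 := bf_symm hS y1 x2
  have h42 := bf_symm hS y2 x2
  have h43 := bf_symm hS y2 y1
  rw [h12] at h21
  rw [h13] at h31
  rw [h14] at h41
  rw [h23] at h32
  rw [h24] at h42
  have hG : (Matrix.of fun i j => bf S (Q i) (Q j)) =
      !![0, 1, 0, 0; 1, bf S x2 x2, 0, 0; 0, 0, bf S y1 y1, bf S y1 y2; 0, 0, bf S y1 y2, bf S y2 y2] := by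
    have hQ' : ∀ i, Q i = ![x, x2, y1, y2] i := fun i => by rw [hQ]; rfl
    ext i j
    rw [Matrix.of_apply, hQ' i, hQ' j]
    fin_cases i <;> fin_cases j <;> simp [h11, h12, h13, h14, h21, h23, h24, h31, h32, h41, h42, h43]
  rw [hG] at hd
  have hdet : (!![0, 1, 0, 0; 1, bf S x2 x2, 0, 0; 0, 0, bf S y1 y1, bf S y1 y2; 0, 0, bf S y1 y2, bf S y2 y2] :
      Matrix (Fin 4) (Fin 4) M).det = bf S y1 y2 ^ 2 - bf S y1 y1 * bf S y2 y2 := by
    simp [Matrix.det_succ_row_zero, Fin.sum_univ_succ]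
    rw [show (Fin.succAbove (1 : Fin 4) (2 : Fin 3)) = 3 from rfl]
    simp
    ring
  rw [hdet] at hd
  rw [← hd]
  ring

/-- a totally isotropic plane through an isotropic vector -/
theorem iso_plane {M : Type*} [Field M] (S : Matrix (Fin 4) (Fin 4) M) (hS : Sᵀ = S) (s : M)
    (hs : s ≠ 0) (hdet : S.det = s ^ 2) (x : Fin 4 → M) (hx : x ≠ 0) (hq : qf S x = 0) :
    ∃ y : Fin 4 → M, LinearIndependent M ![x, y] ∧ qf S y = 0 ∧ bf S x y = 0 := by
  have hdet0 : S.det ≠ 0 := by
    rw [hdet]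
    exact pow_ne_zero 2 hs
  have hxx : bf S x x = 0 := hq
  obtain ⟨i, hi⟩ : ∃ i, x i ≠ 0 := by
    by_contra hc
    push Not at hc
    exact hx (funext hc)
  obtain ⟨x2, hx2⟩ : ∃ x2, bf S x x2 = 1 := by
    refine ⟨S⁻¹ *ᵥ (Pi.single i (x i)⁻¹), ?_⟩
    unfold bf
    rw [mulVec_mulVec, Matrix.mul_nonsing_inv _ (isUnit_iff_ne_zero.2 hdet0), one_mulVec, dotProduct_single,
      mul_inv_cancel₀ hi]
  obtain ⟨y1, y2, hli, hf1, hf2⟩ := exists_two (M := M)
    (LinearMap.pi ![{ toFun := fun z => bf S x z, map_add' := fun a b => bf_add_right S x a b,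
                      map_smul' := fun c a => bf_smul_right S c x a },
                    { toFun := fun z => bf S x2 z, map_add' := fun a b => bf_add_right S x2 a b,
                      map_smul' := fun c a => bf_smul_right S c x2 a }])
  have h13 : bf S x y1 = 0 := congrFun hf1 0
  have h23 : bf S x2 y1 = 0 := congrFun hf1 1
  have h14 : bf S x y2 = 0 := congrFun hf2 0
  have h24 : bf S x2 y2 = 0 := congrFun hf2 1
  have hG := gram_det S hS x x2 y1 y2 hxx hx2 h13 h14 h23 h24
  obtain ⟨r, hr⟩ : ∃ r, r = (Matrix.of ![x, x2, y1, y2]).det * s := ⟨_, rfl⟩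
  rw [hdet, ← mul_pow, ← hr] at hG
  have hpair := LinearIndependent.pair_iff.1 hli
  -- independence of `x` from the span of `y1, y2`
  have hind : ∀ a c1 c2 : M, a • x + (c1 • y1 + c2 • y2) = 0 → a = 0 ∧ c1 = 0 ∧ c2 = 0 := by
    intro a c1 c2 h
    have h1 := congrArg (fun z => bf S x2 z) h
    simp only [bf_add_right, bf_smul_right, bf_zero_right, h23, h24, mul_zero, add_zero] at h1
    rw [bf_symm hS x2 x, hx2, mul_one] at h1
    rw [h1, zero_smul, zero_add] at h
    exact ⟨h1, hpair c1 c2 h⟩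
  have hy : ∀ c1 c2 : M, (c1 ≠ 0 ∨ c2 ≠ 0) → qf S (c1 • y1 + c2 • y2) = 0 →
      ∃ y : Fin 4 → M, LinearIndependent M ![x, y] ∧ qf S y = 0 ∧ bf S x y = 0 := by
    intro c1 c2 hc h0
    refine ⟨c1 • y1 + c2 • y2, ?_, h0, ?_⟩
    · rw [LinearIndependent.pair_iff]
      intro a b hab
      rw [smul_add, smul_smul, smul_smul] at hab
      obtain ⟨h1, h2, h3⟩ := hind a (b * c1) (b * c2) hab
      refine ⟨h1, ?_⟩
      rcases hc with hc | hc
      · exact (mul_eq_zero.1 h2).resolve_right hc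
      · exact (mul_eq_zero.1 h3).resolve_right hc
    · rw [bf_add_right, bf_smul_right, bf_smul_right, h13, h14, mul_zero, mul_zero, add_zero]
  have hexp : ∀ c1 c2 : M, qf S (c1 • y1 + c2 • y2) =
      c1 ^ 2 * bf S y1 y1 + 2 * c1 * c2 * bf S y1 y2 + c2 ^ 2 * bf S y2 y2 := by
    intro c1 c2
    rw [← bf_self, bf_add_left, bf_add_right, bf_add_right, bf_smul_left, bf_smul_left, bf_smul_left, bf_smul_left,
      bf_smul_right, bf_smul_right, bf_smul_right, bf_smul_right, bf_symm hS y2 y1]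
    ring
  by_cases ha : bf S y1 y1 = 0
  · refine hy 1 0 (Or.inl one_ne_zero) ?_
    rw [hexp, ha]
    ring
  · refine hy (-bf S y1 y2 + r) (bf S y1 y1) (Or.inr ha) ?_
    rw [hexp]
    linear_combination (bf S y1 y1) * hG

end Pool.Agent.H58.S13
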