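import Pool.Agent.H58.S13.D0

/-!
# S13: simple roots of the determinant of a pencil
-/

set_option autoImplicit false

namespace Pool.Agent.H58.S13

open Matrix Polynomial

theorem deriv_det {M : Type*} [CommRing M] {n : Type*} [Fintype n] [DecidableEq n] (N : Matrix n n M[X]) :
    derivative N.det = ∑ i, ∑ a, N.adjugate i a * derivative (N a i) := by
  have h1 : ∀ i, ∑ a, N.adjugate i a * derivative (N a i) = (N.updateCol i fun a => derivative (N a i)).det := by
    intro i
    rw [← Matrix.cramer_apply, Matrix.cramer_eq_adjugate_mulVec]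
    rfl
  simp only [h1]
  rw [Matrix.det_apply', derivative_sum]
  simp only [Matrix.det_apply']
  rw [Finset.sum_comm]
  refine Finset.sum_congr rfl fun σ _ => ?_
  rw [derivative_mul, derivative_intCast, zero_mul, zero_add, ← Finset.mul_sum, derivative_prod_finset]
  congr 1
  refine Finset.sum_congr rfl fun i _ => ?_
  rw [← Finset.mul_prod_erase Finset.univ _ (Finset.mem_univ i), mul_comm]
  congr 1
  · rw [Matrix.updateCol_self]
  · refine Finset.prod_congr rfl fun j hj => ?_
    rw [Matrix.updateCol_ne (Finset.ne_of_mem_erase hj)]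

theorem deriv_pencil {M : Type*} [CommRing M] {n : Type*} [Fintype n] [DecidableEq n] (A B : Matrix n n M) (t : M) :
    (derivative (A.map C + (X : M[X]) • B.map C).det).eval t = ∑ i, ∑ a, (A + t • B).adjugate i a * B a i := by
  rw [deriv_det, eval_finsetSum]
  refine Finset.sum_congr rfl fun i _ => ?_
  rw [eval_finsetSum]
  refine Finset.sum_congr rfl fun a _ => ?_
  rw [eval_mul]
  have h1 : derivative ((A.map C + (X : M[X]) • B.map C) a i) = C (B a i) := by
    rw [Matrix.add_apply, Matrix.smul_apply, Matrix.map_apply, Matrix.map_apply, smul_eq_mul, derivative_add, derivative_C,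
      derivative_mul, derivative_X, derivative_C, mul_zero, add_zero, zero_add, one_mul]
  rw [h1, eval_C]
  have h2 : (A.map C + (X : M[X]) • B.map C).map (evalRingHom t) = A + t • B := by
    ext u v
    simp
    ring
  have h3 := RingHom.map_adjugate (evalRingHom t) (A.map C + (X : M[X]) • B.map C)
  rw [RingHom.mapMatrix_apply, RingHom.mapMatrix_apply, h2] at h3
  rw [← h3, Matrix.map_apply]
  rfl

theorem eval_pencil {M : Type*} [CommRing M] {n : Type*} [Fintype n] [DecidableEq n] (A B : Matrix n n M) (t : M) :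
    ((A.map C + (X : M[X]) • B.map C).det).eval t = (A + t • B).det := by
  have h2 : (A.map C + (X : M[X]) • B.map C).map (evalRingHom t) = A + t • B := by
    ext u v
    simp
    ring
  have h3 := RingHom.map_det (evalRingHom t) (A.map C + (X : M[X]) • B.map C)
  rw [RingHom.mapMatrix_apply, h2] at h3
  exact h3

/-- the adjugate of a symmetric singular matrix with nonzero adjugate -/
theorem adj_rank_one {M : Type*} [Field M] (S : Matrix (Fin 5) (Fin 5) M) (hS : Sᵀ = S) (hdet : S.det = 0)
    (hadj : S.adjugate ≠ 0) :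
    ∃ (e : Fin 5 → M) (l : M), e ≠ 0 ∧ l ≠ 0 ∧ (∀ z, S *ᵥ z = 0 → ∃ c : M, z = c • e) ∧
      ∀ i j, S.adjugate i j = l * (e i * e j) := by
  obtain ⟨a, b, hab⟩ : ∃ a b, S.adjugate a b ≠ 0 := by
    by_contra hc
    push Not at hc
    exact hadj (by ext i j; exact hc i j)
  have hcol : ∀ j, S *ᵥ (fun i => S.adjugate i j) = 0 := by
    intro j
    funext i
    have h1 := congrFun (congrFun (Matrix.mul_adjugate S) i) j
    rw [hdet, zero_smul] at h1
    exact h1
  obtain ⟨e, he⟩ : ∃ e : Fin 5 → M, e = fun i => S.adjugate i b := ⟨_, rfl⟩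
  have hea : e a ≠ 0 := by
    rw [he]
    exact hab
  have hSe : S *ᵥ e = 0 := by
    rw [he]
    exact hcol b
  have hmin : (S.submatrix b.succAbove a.succAbove).det ≠ 0 := by
    intro h
    rw [Matrix.adjugate_fin_succ_eq_det_submatrix, h, mul_zero] at hab
    exact hab rfl
  have hker : ∀ z, S *ᵥ z = 0 → z = (z a / e a) • e := by
    intro z hz
    obtain ⟨z', hz'⟩ : ∃ z', z' = z - (z a / e a) • e := ⟨_, rfl⟩
    have h1 : S *ᵥ z' = 0 := by
      rw [hz', Matrix.mulVec_sub, hz, Matrix.mulVec_smul, hSe, smul_zero, sub_zero]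
    have h2 : z' a = 0 := by
      rw [hz', Pi.sub_apply, Pi.smul_apply, smul_eq_mul, div_mul_cancel₀ _ hea, sub_self]
    have h3 : (S.submatrix b.succAbove a.succAbove) *ᵥ (fun j => z' (a.succAbove j)) = 0 := by
      funext r
      have h4 := congrFun h1 (b.succAbove r)
      rw [Matrix.mulVec, dotProduct, Fin.sum_univ_succAbove _ a, h2, mul_zero, zero_add] at h4
      exact h4
    have h5 := Matrix.eq_zero_of_mulVec_eq_zero hmin h3
    have h6 : z' = 0 := by
      funext i
      rcases Fin.eq_self_or_eq_succAbove a i with h | ⟨j, h⟩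
      · rw [h, h2]; rfl
      · rw [h]
        exact congrFun h5 j
    rw [hz', sub_eq_zero] at h6
    exact h6
  have hsym : ∀ i j, S.adjugate i j = S.adjugate j i := by
    intro i j
    have := Matrix.adjugate_transpose S
    rw [hS] at this
    exact congrFun (congrFun this j) i
  obtain ⟨c, hc⟩ : ∃ c : Fin 5 → M, ∀ j, c j = S.adjugate a j / e a := ⟨_, fun j => rfl⟩
  have hcj : ∀ i j, S.adjugate i j = c j * e i := by
    intro i j
    have := congrFun (hker _ (hcol j)) i
    rw [hc]
    exact this
  have hcj2 : ∀ j, c j = c a / e a * e j := by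
    intro j
    have h1 : c j * e a = c a * e j := by rw [← hcj, ← hcj, hsym]
    field_simp
    linear_combination h1
  refine ⟨e, c a / e a, fun h => hea (by rw [h]; rfl), fun h => ?_, fun z hz => ⟨_, hker z hz⟩, fun i j => ?_⟩
  · apply hab
    rw [hcj, hcj2, h, zero_mul, zero_mul]
  · rw [hcj, hcj2]
    ring

/-- at a simple root the corank is one and the vertex is not a zero of the pencil -/
theorem simple_root {M : Type*} [Field M] (A B : Matrix (Fin 5) (Fin 5) M) (hA : Aᵀ = A) (hB : Bᵀ = B) (t : M)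
    (hdet : (A + t • B).det = 0) (hder : (derivative (A.map C + (X : M[X]) • B.map C).det).eval t ≠ 0) :
    (∃ i : Fin 5, ((A + t • B).submatrix i.succAbove i.succAbove).det ≠ 0) ∧
      ∀ z, (A + t • B) *ᵥ z = 0 → z ≠ 0 → qf B z ≠ 0 := by
  obtain ⟨S, hSdef⟩ : ∃ S, S = A + t • B := ⟨_, rfl⟩
  rw [deriv_pencil] at hder
  rw [← hSdef] at hdet hder ⊢
  have hS : Sᵀ = S := by rw [hSdef, Matrix.transpose_add, Matrix.transpose_smul, hA, hB]
  have hadj : S.adjugate ≠ 0 := by
    intro h
    apply hder
    rw [h]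
    simp
  obtain ⟨e, l, he, hl, hker, hform⟩ := adj_rank_one S hS hdet hadj
  have hsum : ∑ i, ∑ a, S.adjugate i a * B a i = l * qf B e := by
    rw [qf_eq, Finset.mul_sum, Finset.sum_comm]
    refine Finset.sum_congr rfl fun i _ => ?_
    rw [Finset.mul_sum]
    refine Finset.sum_congr rfl fun j _ => ?_
    rw [hform]
    ring
  rw [hsum] at hder
  have hBe : qf B e ≠ 0 := right_ne_zero_of_mul hder
  refine ⟨?_, fun z hz hz0 => ?_⟩
  · obtain ⟨i, hi⟩ : ∃ i, e i ≠ 0 := by
      by_contra hc
      push Not at hc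
      exact he (funext hc)
    refine ⟨i, ?_⟩
    have h1 := Matrix.adjugate_fin_succ_eq_det_submatrix S i i
    rw [← two_mul, pow_mul, neg_one_sq, one_pow, one_mul] at h1
    rw [← h1, hform]
    exact mul_ne_zero hl (mul_ne_zero hi hi)
  · obtain ⟨c, hc⟩ := hker z hz
    have hc0 : c ≠ 0 := by
      rintro rfl
      exact hz0 (by rw [hc, zero_smul])
    have h2 : qf B z = c ^ 2 * qf B e := by
      rw [← qf_smul, hc]
      rfl
    rw [h2]
    exact mul_ne_zero (pow_ne_zero 2 hc0) hBe

end Pool.Agent.H58.S13
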