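import Pool.Agent.H90.HM.T
import Pool.Agent.H63.MA.WA

/-!
# S13: weak approximation for norms

From elements `S, T` near given ones at the primes above `2` and with `S² - c T²` of the sign of `b` at the real places.
-/

set_option autoImplicit false

open scoped NumberField
open IsDedekindDomain Filter Topology

noncomputable section

namespace Pool.Agent.H58.S13

open H63.MA

variable {K : Type} [Field K] [NumberField K]

/-- approximate zeros of `x² - b y² - c z²` at `v` -/
def App3 (v : Pl K) (b c : K) : Prop :=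
  ∀ γ : WithZero (Multiplicative ℤ), γ ≠ 0 → ∃ x y z : K,
    (1 ≤ v.valuation K x ∨ 1 ≤ v.valuation K y ∨ 1 ≤ v.valuation K z) ∧
      v.valuation K (x ^ 2 - b * y ^ 2 - c * z ^ 2) < γ

/-- additive weak approximation -/
theorem add_approx (T : Finset (Pl K)) (y : Pl K → K) (δ : Pl K → WithZero (Multiplicative ℤ))
    (hδ : ∀ v ∈ T, δ v ≠ 0) : ∃ x : K, ∀ v ∈ T, v.valuation K (x - y v) < δ v := by
  classical
  obtain ⟨n, hn⟩ := wa_small_finset (T ×ˢ T) (fun q => q.1.valuation K (y q.2 : K))
    (fun q => δ q.1) (by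
      intro q hq
      rw [Finset.mem_product] at hq
      exact hδ _ hq.1)
  choose e he using fun v : Pl K => wa_idem T n v
  refine ⟨∑ v ∈ T, e v * (y v : K), fun w hw => ?_⟩
  have h1 : (∑ v ∈ T, e v * (y v : K)) - (y w : K) = ∑ v ∈ T, (e v - if w = v then 1 else 0) * (y v : K) := by
    have h2 : (y w : K) = ∑ v ∈ T, (if w = v then 1 else 0) * (y v : K) := by
      rw [Finset.sum_eq_single w]
      · simp
      · intro v _ hvw
        rw [if_neg (Ne.symm hvw), zero_mul]
      · intro h; exact absurd hw h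
    have h3 : ∑ v ∈ T, (e v - if w = v then 1 else 0) * (y v : K) =
        (∑ v ∈ T, e v * (y v : K)) - ∑ v ∈ T, (if w = v then 1 else 0) * (y v : K) := by
      rw [← Finset.sum_sub_distrib]
      apply Finset.sum_congr rfl
      intro v _
      ring
    rw [h3, ← h2]
  rw [h1]
  apply Valuation.map_sum_lt
  · exact hδ w hw
  · intro v hv
    rw [map_mul]
    refine lt_of_le_of_lt ?_ (hn (w, v) (Finset.mem_product.2 ⟨hw, hv⟩))
    gcongr
    exact he v w hw

/-- continuity of `(S² - c T²) / b` at `v` -/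
theorem form_approx (v : Pl K) (b c S' T' : K) (hb : b ≠ 0) (γ : WithZero (Multiplicative ℤ)) (hγ : γ ≠ 0)
    (h : v.valuation K ((S' ^ 2 - c * T' ^ 2) / b - 1) < γ) :
    ∃ δ : WithZero (Multiplicative ℤ), δ ≠ 0 ∧ ∀ S T : K, v.valuation K (S - S') < δ → v.valuation K (T - T') < δ →
      v.valuation K ((S ^ 2 - c * T ^ 2) / b - 1) < γ := by
  obtain ⟨big, hbig⟩ : ∃ big, big = max (max 1 (v.valuation K (2 * S'))) (max (v.valuation K c) (v.valuation K (2 * c * T'))) :=
    ⟨_, rfl⟩
  have hbig1 : 1 ≤ big := by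
    rw [hbig]
    exact le_max_of_le_left (le_max_left _ _)
  have hbig0 : big ≠ 0 := (lt_of_lt_of_le zero_lt_one hbig1).ne'
  have hb0 : v.valuation K b ≠ 0 := by rwa [Valuation.ne_zero_iff]
  have hg0 : γ * v.valuation K b * big⁻¹ ≠ 0 := mul_ne_zero (mul_ne_zero hγ hb0) (inv_ne_zero hbig0)
  refine ⟨min 1 (γ * v.valuation K b * big⁻¹), ?_, fun S T hS hT => ?_⟩
  · rcases min_choice 1 (γ * v.valuation K b * big⁻¹) with h' | h'
    · rw [h']
      exact one_ne_zero
    · rw [h']
      exact hg0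
  · have hS1 : v.valuation K (S - S') < 1 := lt_of_lt_of_le hS (min_le_left _ _)
    have hT1 : v.valuation K (T - T') < 1 := lt_of_lt_of_le hT (min_le_left _ _)
    have hS2 : v.valuation K (S - S') < γ * v.valuation K b * big⁻¹ := lt_of_lt_of_le hS (min_le_right _ _)
    have hT2 : v.valuation K (T - T') < γ * v.valuation K b * big⁻¹ := lt_of_lt_of_le hT (min_le_right _ _)
    -- a product with one factor small
    have key : ∀ e f : K, v.valuation K e < γ * v.valuation K b * big⁻¹ → v.valuation K f ≤ big →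
        v.valuation K (e * f) < γ * v.valuation K b := by
      intro e f he hf
      rw [map_mul]
      calc v.valuation K e * v.valuation K f ≤ v.valuation K e * big := by gcongr
        _ < γ * v.valuation K b * big⁻¹ * big := by
            exact mul_lt_mul_of_pos_right he (lt_of_lt_of_le zero_lt_one hbig1)
        _ = γ * v.valuation K b := by rw [inv_mul_cancel_right₀ hbig0]
    have h1 := key (S - S') (S - S') hS2 (hS1.le.trans hbig1)
    have h2 := key (S - S') (2 * S') hS2 (by
      rw [hbig]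
      exact le_max_of_le_left (le_max_right _ _))
    have h3 := key (T - T') (c * (T - T')) hT2 (by
      rw [map_mul]
      calc v.valuation K c * v.valuation K (T - T') ≤ v.valuation K c * 1 := by gcongr
        _ ≤ big := by
          rw [mul_one, hbig]
          exact le_max_of_le_right (le_max_left _ _))
    have h4 := key (T - T') (2 * c * T') hT2 (by
      rw [hbig]
      exact le_max_of_le_right (le_max_right _ _))
    have e1 : (S ^ 2 - c * T ^ 2) / b - 1 = ((S' ^ 2 - c * T' ^ 2) / b - 1) +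
        ((S - S') * (S - S') + (S - S') * (2 * S') - (T - T') * (c * (T - T')) - (T - T') * (2 * c * T')) / b := by
      field_simp
      ring
    rw [e1]
    refine lt_of_le_of_lt (Valuation.map_add _ _ _) (max_lt h ?_)
    rw [map_div₀]
    have h5 : v.valuation K ((S - S') * (S - S') + (S - S') * (2 * S') - (T - T') * (c * (T - T')) - (T - T') * (2 * c * T')) <
        γ * v.valuation K b := by
      refine lt_of_le_of_lt (Valuation.map_sub _ _ _) (max_lt ?_ h4)
      refine lt_of_le_of_lt (Valuation.map_sub _ _ _) (max_lt ?_ h3)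
      exact lt_of_le_of_lt (Valuation.map_add _ _ _) (max_lt h1 h2)
    rw [div_lt_iff₀ (zero_lt_iff.2 hb0)]
    exact h5

/-- at the real places: explicit elements -/
theorem real_norm (b c : K) (hr : ∀ φ : K →+* ℝ, 0 < φ b ∨ 0 < φ c) (hb : b ≠ 0) (hc : c ≠ 0) :
    ∃ S T : K, ∀ φ : K →+* ℝ, 0 < φ b * (φ S ^ 2 - φ c * φ T ^ 2) := by
  classical
  have hfin : Finite (K →+* ℝ) := by
    refine Finite.of_injective (fun φ : K →+* ℝ => (Complex.ofRealHom.comp φ : K →+* ℂ)) fun φ ψ h => ?_
    ext x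
    have h1 := RingHom.congr_fun h x
    exact Complex.ofReal_injective h1
  have hev : ∀ φ : K →+* ℝ, ∀ᶠ m : ℕ in atTop, 0 < φ b * (φ ((b + 1) ^ m) ^ 2 - φ c * φ ((b - 1) ^ m) ^ 2) := by
    intro φ
    have hφb : φ b ≠ 0 := (map_ne_zero φ).2 hb
    have hφc : φ c ≠ 0 := (map_ne_zero φ).2 hc
    have e1 : ∀ m : ℕ, φ ((b + 1) ^ m) ^ 2 - φ c * φ ((b - 1) ^ m) ^ 2 =
        ((φ b + 1) ^ 2) ^ m - φ c * ((φ b - 1) ^ 2) ^ m := by
      intro m
      rw [map_pow, map_pow, map_add, map_sub, map_one, ← pow_mul, ← pow_mul, ← pow_mul, ← pow_mul, mul_comm m 2]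
    have aux : ∀ u w q : ℝ, 0 ≤ u → u < w → ∀ᶠ m : ℕ in atTop, q * u ^ m < w ^ m := by
      intro u w q hu huw
      have hw : 0 < w := lt_of_le_of_lt hu huw
      have h1 : Tendsto (fun m : ℕ => q * (u / w) ^ m) atTop (𝓝 (q * 0)) :=
        (tendsto_pow_atTop_nhds_zero_of_lt_one (div_nonneg hu hw.le) ((div_lt_one hw).2 huw)).const_mul q
      rw [mul_zero] at h1
      filter_upwards [h1.eventually (gt_mem_nhds (zero_lt_one' ℝ))] with m hm
      rw [div_pow, ← mul_div_assoc, div_lt_one (pow_pos hw m)] at hm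
      exact hm
    rcases lt_or_gt_of_ne hφb with hneg | hpos
    · have hc0 : 0 < φ c := (hr φ).resolve_left (not_lt.2 hneg.le)
      have h1 := aux ((φ b + 1) ^ 2) ((φ b - 1) ^ 2) (φ c)⁻¹ (sq_nonneg _) (by nlinarith)
      filter_upwards [h1] with m hm
      rw [e1]
      have h2 : ((φ b + 1) ^ 2) ^ m < φ c * ((φ b - 1) ^ 2) ^ m := by
        rw [inv_mul_lt_iff₀ hc0] at hm
        exact hm
      nlinarith
    · have h1 := aux ((φ b - 1) ^ 2) ((φ b + 1) ^ 2) (φ c) (sq_nonneg _) (by nlinarith)
      filter_upwards [h1] with m hm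
      rw [e1]
      nlinarith
  obtain ⟨m, hm⟩ := (Filter.eventually_all.2 hev).exists
  exact ⟨(b + 1) ^ m, (b - 1) ^ m, hm⟩

end Pool.Agent.H58.S13
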